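import Pool.Agent.K1H53.KD.Plan2

/-!
Paraboloids above a convex function at almost every point, with the subgradient
(statement `S_slope` of Pool/Agent/K1H53/KD/Plan.lean).
-/

open MeasureTheory ProbabilityTheory Set Filter TH967.DP
open scoped Topology

namespace Pool.Agent.K1H53.KD.H7

open Pool.Agent.K1H38.DP Pool.Agent.K1H53.KD

variable {d : ℕ}


lemma sq_nonneg' (t : Fin d → ℝ) : 0 ≤ Pool.Agent.K1H53.KD.sq t := Finset.sum_nonneg fun _ _ => sq_nonneg _

lemma sq_smul (s : ℝ) (t : Fin d → ℝ) : Pool.Agent.K1H53.KD.sq (s • t) = s ^ 2 * Pool.Agent.K1H53.KD.sq t := by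
  simp only [Pool.Agent.K1H53.KD.sq, Finset.mul_sum, Pi.smul_apply, smul_eq_mul, mul_pow]

lemma ip_smul (s : ℝ) (v t : Fin d → ℝ) : ip v (s • t) = s * ip v t := by
  simp only [ip, Finset.mul_sum, Pi.smul_apply, smul_eq_mul]
  exact Finset.sum_congr rfl fun _ _ => by ring

/-- upper paraboloid from the coordinate parabolas -/
lemma upper_of_coord [NeZero d] {p : (Fin d → ℝ) → ℝ} (hc : ConvexOn ℝ Set.univ p)
    {h v : Fin d → ℝ} {Cq r' : ℝ} 
    (hb : ∀ j, ∀ t : ℝ, |t| ≤ r' →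
        p (h + t • (Pi.single j (1 : ℝ) : Fin d → ℝ)) ≤ p h + t * v j + Cq * t ^ 2)
    (t : Fin d → ℝ) (ht : ∀ j, |d * t j| ≤ r') :
    p (h + t) ≤ p h + ip v t + (d * Cq) * Pool.Agent.K1H53.KD.sq t := by
  have hd : (0 : ℝ) < d := by
    have := Nat.pos_of_ne_zero (NeZero.ne d)
    exact_mod_cast this
  have hsum : ∑ _j : Fin d, (1 / (d : ℝ)) = 1 := by
    rw [Finset.sum_const, Finset.card_univ, Fintype.card_fin, nsmul_eq_mul]
    field_simp
  have h1 := hc.map_sum_le (t := Finset.univ) (w := fun _ : Fin d => 1 / (d : ℝ))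
    (p := fun j => h + (d * t j) • (Pi.single j (1 : ℝ) : Fin d → ℝ))
    (fun _ _ => by positivity) hsum (fun _ _ => Set.mem_univ _)
  have h2 : ∑ j : Fin d, (1 / (d : ℝ)) • (h + (d * t j) • (Pi.single j (1 : ℝ) : Fin d → ℝ)) =
      h + t := by
    funext k
    simp only [Finset.sum_apply, Pi.smul_apply, Pi.add_apply, smul_eq_mul]
    have h3 : ∀ j : Fin d, 1 / (d : ℝ) * (h k + d * t j * (Pi.single j (1 : ℝ) : Fin d → ℝ) k) =
        1 / (d : ℝ) * h k + t j * (Pi.single j (1 : ℝ) : Fin d → ℝ) k := by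
      intro j
      field_simp
    simp_rw [h3]
    rw [Finset.sum_add_distrib, ← Finset.sum_mul, hsum, one_mul]
    congr 1
    rw [Finset.sum_eq_single k]
    · simp
    · intro j _ hj
      rw [Pi.single_eq_of_ne (Ne.symm hj), mul_zero]
    · intro hk
      exact absurd (Finset.mem_univ k) hk
  rw [h2] at h1
  refine h1.trans ?_
  have h4 : ∀ j ∈ (Finset.univ : Finset (Fin d)),
      (1 / (d : ℝ)) • p (h + (d * t j) • (Pi.single j (1 : ℝ) : Fin d → ℝ)) ≤
        1 / (d : ℝ) * p h + (v j * t j + d * Cq * t j ^ 2) := by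
    intro j _
    rw [smul_eq_mul]
    have h5 := hb j (d * t j) (ht j)
    have h6 := mul_le_mul_of_nonneg_left h5 (by positivity : (0 : ℝ) ≤ 1 / d)
    refine h6.trans (le_of_eq ?_)
    field_simp
    ring
  refine (Finset.sum_le_sum h4).trans (le_of_eq ?_)
  rw [Finset.sum_add_distrib, ← Finset.sum_mul, hsum, Finset.sum_add_distrib, one_mul]
  simp only [ip, Pool.Agent.K1H53.KD.sq, Finset.mul_sum]
  ring

/-- paraboloid above and subgradient at almost every point -/
theorem t_slope [NeZero d] : S_slope d := by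
  intro p hc hcont
  filter_upwards [ae_slopes hc hcont] with h hh
  obtain ⟨v, Cq, r', hr', hb⟩ := hh
  have hd : (0 : ℝ) < d := by
    have := Nat.pos_of_ne_zero (NeZero.ne d)
    exact_mod_cast this
  have hup : ∀ t : Fin d → ℝ, Pool.Agent.K1H53.KD.sq t ≤ (min (r' / d) 1) ^ 2 →
      p (h + t) ≤ p h + ip v t + (max (d * Cq) 1) * Pool.Agent.K1H53.KD.sq t := by
    intro t ht
    have h1 : ∀ j, |d * t j| ≤ r' := by
      intro j
      have h2 : t j ^ 2 ≤ Pool.Agent.K1H53.KD.sq t :=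
        Finset.single_le_sum (f := fun k => t k ^ 2) (fun _ _ => sq_nonneg _) (Finset.mem_univ j)
      have h3 : t j ^ 2 ≤ (r' / d) ^ 2 := by
        refine (h2.trans ht).trans ?_
        apply pow_le_pow_left₀ (le_min (by positivity) zero_le_one) (min_le_left _ _)
      have h4 : |t j| ≤ r' / d := abs_le_of_sq_le_sq h3 (by positivity) |> fun hh => hh
      rw [abs_mul, abs_of_pos hd]
      calc (d : ℝ) * |t j| ≤ d * (r' / d) := mul_le_mul_of_nonneg_left h4 hd.le
        _ = r' := by field_simp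
    have h2 := upper_of_coord hc hb t h1
    have h3 : (d * Cq) * Pool.Agent.K1H53.KD.sq t ≤ (max (d * Cq) 1) * Pool.Agent.K1H53.KD.sq t :=
      mul_le_mul_of_nonneg_right (le_max_left _ _) (sq_nonneg' t)
    linarith
  refine ⟨v, max (d * Cq) 1, min (r' / d) 1, lt_of_lt_of_le one_pos (le_max_right _ _),
    lt_min (by positivity) one_pos, min_le_right _ _, hup, ?_⟩
  intro t
  generalize hC : max ((d : ℝ) * Cq) 1 = C at hup
  generalize hr : min (r' / (d : ℝ)) 1 = r at hup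
  have hC0 : 0 < C := by rw [← hC]; exact lt_of_lt_of_le one_pos (le_max_right _ _)
  have hr0 : 0 < r := by rw [← hr]; exact lt_min (by positivity) one_pos
  have hr1 : r ≤ 1 := by rw [← hr]; exact min_le_right _ _
  by_contra hcon
  push Not at hcon
  set δ := p h + ip v t - p (h + t) with hδ
  have hδ0 : 0 < δ := by linarith
  have hq := sq_nonneg' t
  set s := min (r / (Pool.Agent.K1H53.KD.sq t + 1)) (δ / (2 * C * (Pool.Agent.K1H53.KD.sq t + 1))) with hs
  have hs0 : 0 < s := by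
    apply lt_min <;> positivity
  have hs1 : s ≤ r / (Pool.Agent.K1H53.KD.sq t + 1) := min_le_left _ _
  have hs2 : s ≤ δ / (2 * C * (Pool.Agent.K1H53.KD.sq t + 1)) := min_le_right _ _
  have hs1' : s * (Pool.Agent.K1H53.KD.sq t + 1) ≤ r := by
    rwa [le_div_iff₀ (by positivity)] at hs1
  have hs2' : s * (2 * C * (Pool.Agent.K1H53.KD.sq t + 1)) ≤ δ := by
    rwa [le_div_iff₀ (by positivity)] at hs2
  have hsle : s ≤ 1 := by nlinarith
  have hssq : Pool.Agent.K1H53.KD.sq (-(s • t)) ≤ r ^ 2 := by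
    have h1 : -(s • t) = (-s) • t := by rw [neg_smul]
    rw [h1, sq_smul]
    have h2 : (s * (Pool.Agent.K1H53.KD.sq t + 1)) ^ 2 ≤ r ^ 2 := pow_le_pow_left₀ (by positivity) hs1' 2
    have h3 : Pool.Agent.K1H53.KD.sq t ≤ (Pool.Agent.K1H53.KD.sq t + 1) ^ 2 := by nlinarith
    have h4 : (-s) ^ 2 * Pool.Agent.K1H53.KD.sq t ≤ (s * (Pool.Agent.K1H53.KD.sq t + 1)) ^ 2 := by
      rw [neg_sq, mul_pow]
      exact mul_le_mul_of_nonneg_left h3 (sq_nonneg s)
    exact h4.trans h2
  have hA := hup _ hssq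
  -- midpoint
  have hmid : p h ≤ (1 / 2) * p (h + s • t) + (1 / 2) * p (h + -(s • t)) := by
    have h1 := hc.2 (Set.mem_univ (h + s • t)) (Set.mem_univ (h + -(s • t)))
      (by norm_num : (0 : ℝ) ≤ 1 / 2) (by norm_num : (0 : ℝ) ≤ 1 / 2) (by norm_num)
    have h2 : (1 / 2 : ℝ) • (h + s • t) + (1 / 2 : ℝ) • (h + -(s • t)) = h := by
      funext k
      simp only [Pi.add_apply, Pi.smul_apply, Pi.neg_apply, smul_eq_mul]
      ring
    rw [h2] at h1
    simpa [smul_eq_mul] using h1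
  have hline : p (h + s • t) ≤ (1 - s) * p h + s * p (h + t) := by
    have h1 := hc.2 (Set.mem_univ h) (Set.mem_univ (h + t))
      (by linarith : (0 : ℝ) ≤ 1 - s) hs0.le (by ring)
    have h2 : (1 - s) • h + s • (h + t) = h + s • t := by
      funext k
      simp only [Pi.add_apply, Pi.smul_apply, smul_eq_mul]
      ring
    rw [h2] at h1
    simpa [smul_eq_mul] using h1
  have h3 : ip v (-(s • t)) = -(s * ip v t) := by
    rw [← neg_smul, ip_smul]; ring
  have h4 : Pool.Agent.K1H53.KD.sq (-(s • t)) = s ^ 2 * Pool.Agent.K1H53.KD.sq t := by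
    rw [← neg_smul, sq_smul, neg_sq]
  rw [h3, h4] at hA
  -- combine
  have h5 : s * δ ≤ C * (s ^ 2 * Pool.Agent.K1H53.KD.sq t) := by
    rw [hδ]
    nlinarith
  have h6 : δ ≤ C * (s * Pool.Agent.K1H53.KD.sq t) := by
    have h7 : s * δ ≤ s * (C * (s * Pool.Agent.K1H53.KD.sq t)) := by
      calc s * δ ≤ C * (s ^ 2 * Pool.Agent.K1H53.KD.sq t) := h5
        _ = s * (C * (s * Pool.Agent.K1H53.KD.sq t)) := by ring
    exact le_of_mul_le_mul_left h7 hs0
  have h8 : 2 * (C * (s * Pool.Agent.K1H53.KD.sq t)) ≤ δ := by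
    have : 2 * (C * (s * Pool.Agent.K1H53.KD.sq t)) ≤ s * (2 * C * (Pool.Agent.K1H53.KD.sq t + 1)) := by
      have h9 : 0 ≤ s * (2 * C) := by positivity
      nlinarith
    linarith
  linarith

end Pool.Agent.K1H53.KD.H7
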