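import Pool.Agent.K1H53.KD.PPMain
import Pool.Agent.K1H53.KD.Slope
import Pool.Agent.K1H8.KD.Dens
import Pool.Agent.K1H31.KD.Zero
import Pool.Agent.K1H38.KD.Upper
import Pool.Agent.K1H38.KD.Mean
import Pool.Agent.K1H39.KD.P4
import Pool.Agent.K1H52.KD.Low
import Pool.Agent.K1H52.KD.Union
import Pool.Agent.K1H54.KD.Cen
import Pool.Agent.K1H54.KD.Two

/-!
Assembly: elementary facts on the exponents.
-/

open MeasureTheory ProbabilityTheory Set Filter TH967.DP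
open scoped Topology

set_option linter.unusedSectionVars false

namespace Pool.Agent.K1H53.KD

open Pool.Agent.K1H38.DP

variable {d : ℕ} {Ω : Type*} [MeasurableSpace Ω] {P : Measure Ω} [IsProbabilityMeasure P]
  {ω : ℕ → (Fin d → ℤ) → Ω → ℝ}

lemma TE_of_tail [NeZero d] (he : IsEnv P ω) (hexp : HasExp P ω) {β c b : ℝ} {h : Fin d → ℝ}
    (hc : c ∈ TailSet P ω β h) (hcb : c < b) :
    ∃ c' s' C' : ℚ, c < c' ∧ (c' : ℝ) < b ∧ 0 < (s' : ℝ) ∧ h ∈ TE P ω β c' s' C' := by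
  obtain ⟨hc0, s, C, hs, H⟩ := hc
  obtain ⟨c', hc1, hc2⟩ := exists_rat_btwn hcb
  obtain ⟨s', hs1, hs2⟩ := exists_rat_btwn hs
  obtain ⟨C', hC'⟩ := exists_rat_gt (max C 0)
  refine ⟨c', s', C', hc1, hc2, hs1, fun n hn => ?_⟩
  have hnR : (1 : ℝ) ≤ n := by exact_mod_cast hn
  have h1 := H n hn
  rw [dev_eq he hexp] at h1
  have h2 : P.real (dev P ω β h n ((n : ℝ) ^ (c' : ℝ))) ≤ P.real (dev P ω β h n ((n : ℝ) ^ c)) := by
    apply measureReal_mono _ (measure_ne_top _ _)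
    intro x hx
    unfold dev at hx ⊢
    simp only [mem_ofPred_eq] at hx ⊢
    exact lt_of_le_of_lt (Real.rpow_le_rpow_of_exponent_le hnR hc1.le) hx
  refine h2.trans (h1.trans ?_)
  have h3 : Real.exp (-(n : ℝ) ^ s) ≤ Real.exp (-(n : ℝ) ^ (s' : ℝ)) := by
    apply Real.exp_le_exp.2
    have := Real.rpow_le_rpow_of_exponent_le hnR hs2.le
    linarith
  have h4 : C ≤ (C' : ℝ) := (le_max_left C 0).trans hC'.le
  have h5 : (0 : ℝ) ≤ C' := (le_max_right C 0).trans hC'.le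
  calc C * Real.exp (-(n : ℝ) ^ s) ≤ C' * Real.exp (-(n : ℝ) ^ s) :=
        mul_le_mul_of_nonneg_right h4 (Real.exp_pos _).le
    _ ≤ _ := mul_le_mul_of_nonneg_left h3 h5

lemma chi_le {β c : ℝ} {h : Fin d → ℝ} (hc : c ∈ TailSet P ω β h) : chi P ω β h ≤ c :=
  csInf_le ⟨0, fun _ h => h.1.le⟩ hc

lemma mem_tailset [NeZero d] (he : IsEnv P ω) (hexp : HasExp P ω) (β : ℝ) (h : Fin d → ℝ) {c : ℝ}
    (hc : 1 / 2 < c) (hc1 : c ≤ 1) : c ∈ TailSet P ω β h := by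
  obtain ⟨s, C, hs, -, ht⟩ := tail_half he hexp β hc hc1
  refine ⟨by linarith, s, C, hs, fun n hn => ?_⟩
  rw [dev_eq he hexp]
  exact ht n hn h

lemma chi_half [NeZero d] (he : IsEnv P ω) (hexp : HasExp P ω) (β : ℝ) (h : Fin d → ℝ) :
    chi P ω β h ≤ 1 / 2 := by
  apply le_of_forall_gt_imp_ge_of_dense
  intro c hc
  rcases le_or_gt c 1 with h1 | h1
  · exact chi_le (mem_tailset he hexp β h hc h1)
  · exact (chi_le (mem_tailset he hexp β h (c := 1) (by norm_num) le_rfl)).trans h1.le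

lemma chi_nonneg (β : ℝ) (h : Fin d → ℝ) : 0 ≤ chi P ω β h :=
  Real.sInf_nonneg fun _ hc => hc.1.le

lemma nu_nonneg (β : ℝ) (h v : Fin d → ℝ) : 0 ≤ nu P ω β h v :=
  Real.sInf_nonneg fun _ hc => hc.1.le

lemma exists_tail' [NeZero d] (he : IsEnv P ω) (hexp : HasExp P ω) {β b : ℝ} {h : Fin d → ℝ}
    (hb : chi P ω β h < b) : ∃ c ∈ TailSet P ω β h, c < b :=
  exists_lt_of_csInf_lt ⟨1, mem_tailset he hexp β h (by norm_num) le_rfl⟩ hb

lemma nu_le {β a : ℝ} {h v : Fin d → ℝ} (ha : a ∈ ConfSet P ω β h v) : nu P ω β h v ≤ a :=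
  csInf_le ⟨0, fun _ h => h.1.le⟩ ha

end Pool.Agent.K1H53.KD
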