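import Pool.Agent.K1H53.KD.Vec

/-!
The one-step contraction of the steering (pure inequalities).
-/

open Set Filter
open scoped Topology

set_option linter.unusedSectionVars false

namespace Pool.Agent.K1H53.KD

open Pool.Agent.K1H38.DP

variable {d : ℕ}

/-- the parameters of the steering -/
structure Par (d : ℕ) (c₂ C₁ lam C₃ η θ : ℝ) : Prop where
  hc2 : 0 < c₂
  hC1 : c₂ ≤ C₁
  hlam : lam * c₂ = 8
  hC3 : C₃ = 16 * d * C₁ * lam
  hη0 : 0 < η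
  hη1 : η * (4 * Real.sqrt d) ≤ 1
  hη2 : η * (2048 * d * C₁) ≤ c₂
  hθ0 : 0 < θ
  hθ1 : θ ≤ 1 / 8
  hθ2 : θ * (8 * C₃ ^ 2) ≤ 1

lemma Par.lam_pos {c₂ C₁ lam C₃ η θ : ℝ} (hp : Par d c₂ C₁ lam C₃ η θ) : 0 < lam := by
  by_contra hcon
  push Not at hcon
  have := mul_nonpos_of_nonpos_of_nonneg hcon hp.hc2.le
  linarith [hp.hlam]

lemma Par.C3_ge [NeZero d] {c₂ C₁ lam C₃ η θ : ℝ} (hp : Par d c₂ C₁ lam C₃ η θ) : 1 ≤ C₃ := by
  have hd : (1 : ℝ) ≤ d := by exact_mod_cast NeZero.one_le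
  have hl := hp.lam_pos
  have h1 : 8 ≤ C₁ * lam := by
    have := mul_le_mul_of_nonneg_right hp.hC1 hl.le
    linarith [hp.hlam]
  rw [hp.hC3]
  nlinarith

/-- existence of parameters -/
lemma exists_par [NeZero d] {c₂ C₁ : ℝ} (h1 : 0 < c₂) (h2 : c₂ ≤ C₁) :
    ∃ lam C₃ η θ : ℝ, Par d c₂ C₁ lam C₃ η θ := by
  have hd : (1 : ℝ) ≤ d := by exact_mod_cast NeZero.one_le
  have hs : 0 < Real.sqrt d := Real.sqrt_pos.2 (by linarith)
  have hC1 : 0 < C₁ := by linarith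
  set lam := 8 / c₂ with hlam
  have hl : 0 < lam := by rw [hlam]; positivity
  set C₃ := 16 * d * C₁ * lam with hC3
  have hC3p : 0 < C₃ := by rw [hC3]; positivity
  refine ⟨lam, C₃, min (1 / (4 * Real.sqrt d)) (c₂ / (2048 * d * C₁)),
    min (1 / 8) (1 / (8 * C₃ ^ 2)), h1, h2, ?_, rfl, ?_, ?_, ?_, ?_, ?_, ?_⟩
  · rw [hlam]; field_simp
  · apply lt_min <;> positivity
  · have := min_le_left (1 / (4 * Real.sqrt d)) (c₂ / (2048 * d * C₁))
    rwa [le_div_iff₀ (by positivity)] at this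
  · have := min_le_right (1 / (4 * Real.sqrt d)) (c₂ / (2048 * d * C₁))
    rwa [le_div_iff₀ (by positivity)] at this
  · apply lt_min <;> positivity
  · exact min_le_left _ _
  · have := min_le_right (1 / 8) (1 / (8 * C₃ ^ 2))
    rwa [le_div_iff₀ (by positivity)] at this

/-- the bound for `w` (real numbers only) -/
lemma wb {D dd C₁ lam C₃ θ M n X b₂ τ W : ℝ} (hDD : D * D = dd) (hD : 0 < D)
    (hC3 : C₃ = 16 * dd * C₁ * lam) (hC31 : 1 ≤ C₃) (hC1 : 0 < C₁) (hl : 0 < lam) (hθ : 0 < θ)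
    (hM : 0 < M) (hX : 0 < X) (hτ : 0 < τ) (e1 : τ * M = 5 * D * lam * X) (hn2 : n ≤ θ * M)
    (hb : b₂ * (4 * M) ≤ lam * θ * X ^ 2)
    (H : τ * W ≤ 2 * D * (n * (C₁ * (25 / 16 * τ ^ 2)) + b₂)) : W ≤ 2 * C₃ * θ * X := by
  have h1 : τ * W ≤ τ * (2 * C₃ * θ * X) := by
    refine H.trans ?_
    have h2 : 2 * D * (n * (C₁ * (25 / 16 * τ ^ 2))) ≤ τ * (C₃ * θ * X) := by
      have h3 : n * τ ≤ θ * (5 * D * lam * X) := by
        rw [← e1]
        have := mul_le_mul_of_nonneg_right hn2 hτ.le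
        linarith
      have h4 : 2 * D * (n * (C₁ * (25 / 16 * τ ^ 2))) = τ * (25 / 8 * D * C₁ * (n * τ)) := by
        ring
      rw [h4]
      apply mul_le_mul_of_nonneg_left _ hτ.le
      have h5 : 25 / 8 * D * C₁ * (n * τ) ≤ 25 / 8 * D * C₁ * (θ * (5 * D * lam * X)) :=
        mul_le_mul_of_nonneg_left h3 (by positivity)
      refine h5.trans ?_
      have h6 : 25 / 8 * D * C₁ * (θ * (5 * D * lam * X)) =
          125 / 8 * ((D * D) * C₁ * lam * θ * X) := by ring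
      have h7 : C₃ * θ * X = 16 * ((D * D) * C₁ * lam * θ * X) := by rw [hC3, hDD]; ring
      rw [h6, h7]
      have : 0 ≤ (D * D) * C₁ * lam * θ * X := by positivity
      linarith
    have h3 : 2 * D * b₂ ≤ τ * (C₃ * θ * X) := by
      have h4 : 2 * D * b₂ * M ≤ τ * M * (C₃ * θ * X) := by
        rw [e1]
        have h5 : 2 * D * (b₂ * (4 * M)) ≤ 2 * D * (lam * θ * X ^ 2) :=
          mul_le_mul_of_nonneg_left hb (by linarith)
        have h6 : D * lam * X * (1 * (θ * X)) ≤ D * lam * X * (C₃ * (θ * X)) :=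
          mul_le_mul_of_nonneg_left (mul_le_mul_of_nonneg_right hC31 (by positivity))
            (by positivity)
        have h7 : 0 ≤ D * lam * X * (C₃ * (θ * X)) := by positivity
        have h8 : 2 * D * b₂ * M = (2 * D * (b₂ * (4 * M))) / 4 := by ring
        have h9 : 2 * D * (lam * θ * X ^ 2) = 2 * (D * lam * X * (1 * (θ * X))) := by ring
        have h10 : 5 * D * lam * X * (C₃ * θ * X) = 5 * (D * lam * X * (C₃ * (θ * X))) := by ring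
        rw [h8, h10]
        rw [h9] at h5
        linarith
      have h5 : 2 * D * b₂ * M ≤ (τ * (C₃ * θ * X)) * M := by
        refine h4.trans (le_of_eq ?_)
        ring
      exact le_of_mul_le_mul_right h5 hM
    have e2 : 2 * D * (n * (C₁ * (25 / 16 * τ ^ 2)) + b₂) =
      2 * D * (n * (C₁ * (25 / 16 * τ ^ 2))) + 2 * D * b₂ := by ring
    have e3 : τ * (2 * C₃ * θ * X) = τ * (C₃ * θ * X) + τ * (C₃ * θ * X) := by ring
    rw [e2, e3]
    exact add_le_add h2 h3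
  exact le_of_mul_le_mul_left h1 hτ

/-- the error term (real numbers only); `T` is the norm of `t` and `S` that of `e` -/
lemma errb {dd c₂ C₁ lam C₃ η θ M n X T S : ℝ} (hC3 : C₃ = 16 * dd * C₁ * lam) (hC30 : 0 ≤ C₃)
    (hl : 0 < lam) (hη0 : 0 ≤ η) (hη2 : η * (2048 * dd * C₁) ≤ c₂) (hθ : 0 ≤ θ) (hM : 0 < M)
    (hn0 : 0 ≤ n) (hn1 : θ * M ≤ 2 * n) (hT : T = lam / M * S) (hS0 : 0 ≤ S) (hS : X ≤ 2 * S) :
    η * T * (2 * C₃ * θ * X) ≤ 1 / 16 * c₂ * n * T ^ 2 := by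
  have hT0 : 0 ≤ T := by rw [hT]; positivity
  have a2 : lam * X ≤ 2 * M * T := by
    have h1 : 2 * M * T = lam * (2 * S) := by rw [hT]; field_simp
    rw [h1]
    exact mul_le_mul_of_nonneg_left hS hl.le
  have a3 : lam * (η * T * (2 * C₃ * θ * X)) ≤ lam * (1 / 16 * c₂ * n * T ^ 2) := by
    have b1 : lam * (η * T * (2 * C₃ * θ * X)) = (η * T * 2 * C₃ * θ) * (lam * X) := by ring
    have b2 : (η * T * 2 * C₃ * θ) * (lam * X) ≤ (η * T * 2 * C₃ * θ) * (2 * M * T) :=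
      mul_le_mul_of_nonneg_left a2 (by positivity)
    have b3 : (η * T * 2 * C₃ * θ) * (2 * M * T) = 4 * η * C₃ * T ^ 2 * (θ * M) := by ring
    have b4 : 4 * η * C₃ * T ^ 2 * (θ * M) ≤ 4 * η * C₃ * T ^ 2 * (2 * n) :=
      mul_le_mul_of_nonneg_left hn1 (by positivity)
    have b5 : 4 * η * C₃ * T ^ 2 * (2 * n) =
        (η * (2048 * dd * C₁)) * (lam * (1 / 16 * n * T ^ 2)) := by
      rw [hC3]; ring
    have b6 := mul_le_mul_of_nonneg_right hη2 (show 0 ≤ lam * (1 / 16 * n * T ^ 2) by positivity)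
    have b7 : c₂ * (lam * (1 / 16 * n * T ^ 2)) = lam * (1 / 16 * c₂ * n * T ^ 2) := by ring
    rw [b1]
    rw [b3] at b2
    rw [b5] at b4
    rw [b7] at b6
    exact b2.trans (b4.trans b6)
  exact le_of_mul_le_mul_left a3 hl

/-- the drift towards the target (real numbers only); `E` is the norm of `e`, `I` the scalar
product `e · w` -/
lemma drb {c₂ lam θ M n X b₂ E I : ℝ} (hl : 0 < lam) (hlc : lam * c₂ = 8) (hM : 0 < M)
    (hn1 : θ * M ≤ 2 * n) (hb : b₂ * (4 * M) ≤ lam * θ * X ^ 2)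
    (h8 : 1 / 2 * c₂ * n * (lam / M * E) ^ 2 - b₂ ≤ lam / M * I) :
    2 * θ * E ^ 2 - θ * X ^ 2 / 4 ≤ I := by
  have a1 := mul_le_mul_of_nonneg_left h8 (show 0 ≤ M / lam by positivity)
  have a2 : M / lam * (lam / M * I) = I := by field_simp
  have a3 : M / lam * (1 / 2 * c₂ * n * (lam / M * E) ^ 2 - b₂) =
      1 / 2 * (lam * c₂) * (n / M) * E ^ 2 - b₂ * M / lam := by field_simp
  rw [a2, a3, hlc] at a1
  have a4 : θ / 2 ≤ n / M := by
    rw [div_le_div_iff₀ (by norm_num) hM]; linarith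
  have a5 : b₂ * M / lam ≤ θ * X ^ 2 / 4 := by
    rw [div_le_iff₀ hl]; linarith
  have a6 : θ / 2 * E ^ 2 ≤ n / M * E ^ 2 := mul_le_mul_of_nonneg_right a4 (sq_nonneg _)
  linarith

/-- the last step of the contraction (real numbers only) -/
lemma lastb {C₃ θ X E I W : ℝ} (hθ0 : 0 ≤ θ) (hθ1 : θ ≤ 1 / 8) (hθ2 : θ * (8 * C₃ ^ 2) ≤ 1)
    (hE0 : 0 ≤ E) (hE : E ≤ X) (hW0 : 0 ≤ W) (hW : W ≤ 2 * C₃ * θ * X)
    (hI : 2 * θ * E ^ 2 - θ * X ^ 2 / 4 ≤ I) :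
    E ^ 2 - 2 * I + W ^ 2 ≤ (1 - 3 * θ) * X ^ 2 := by
  have h11 : W ^ 2 ≤ θ * X ^ 2 / 2 := by
    have a1 := pow_le_pow_left₀ hW0 hW 2
    have a2 : (2 * C₃ * θ * X) ^ 2 = (θ * (8 * C₃ ^ 2)) * (θ * X ^ 2 / 2) := by ring
    rw [a2] at a1
    have a3 := mul_le_mul_of_nonneg_right hθ2 (show 0 ≤ θ * X ^ 2 / 2 by positivity)
    linarith
  have h12 : E ^ 2 ≤ X ^ 2 := pow_le_pow_left₀ hE0 hE 2
  have h13 : (1 - 4 * θ) * E ^ 2 ≤ (1 - 4 * θ) * X ^ 2 :=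
    mul_le_mul_of_nonneg_left h12 (by linarith)
  linarith

lemma casea {C₃ θ X E W V : ℝ} (hθ1 : θ ≤ 1 / 8) (hCθ : 8 * (θ * C₃) ≤ 1) (hX : 0 ≤ X)
    (hE : E ≤ X / 2) (hW : W ≤ 2 * C₃ * θ * X) (hV0 : 0 ≤ V) (hV : V ≤ E + W) :
    V ^ 2 ≤ (1 - 3 * θ) * X ^ 2 := by
  have h0 : 8 * (θ * C₃) * X ≤ 1 * X := mul_le_mul_of_nonneg_right hCθ hX
  have h4 : V ≤ 3 / 4 * X := by linarith
  have h5 := pow_le_pow_left₀ hV0 h4 2
  have h6 : (3 / 4 * X) ^ 2 = 9 / 16 * X ^ 2 := by ring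
  have h7 : 9 / 16 * X ^ 2 ≤ (1 - 3 * θ) * X ^ 2 :=
    mul_le_mul_of_nonneg_right (by linarith) (sq_nonneg X)
  linarith

lemma lowsq {T U V η : ℝ} (hη : η ≤ 1 / 4) (hT : 0 ≤ T) (hV : V ≤ η * T)
    (h : T ≤ U + V) : 9 / 16 * T ^ 2 ≤ U ^ 2 := by
  have h0 : η * T ≤ 1 / 4 * T := mul_le_mul_of_nonneg_right hη hT
  have h4 : 3 / 4 * T ≤ U := by linarith
  have h5 := pow_le_pow_left₀ (show 0 ≤ 3 / 4 * T by positivity) h4 2
  have h6 : (3 / 4 * T) ^ 2 = 9 / 16 * T ^ 2 := by ring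
  linarith

lemma prodb {lam C₃ θ M X U W : ℝ} (hl : 0 < lam) (hC3 : 0 ≤ C₃) (hθ : 0 ≤ θ) (hθ1 : θ ≤ 1)
    (hM : 0 < M) (hX : 0 < X) (hW0 : 0 ≤ W) (hU : U ≤ 5 / 4 * (lam * X / M))
    (hW : W ≤ 2 * C₃ * θ * X) : U * W ≤ 5 / 2 * lam * C₃ * X ^ 2 / M := by
  have h1 : U * W ≤ (5 / 4 * (lam * X / M)) * (2 * C₃ * θ * X) :=
    mul_le_mul hU hW hW0 (by positivity)
  have h2 : (5 / 4 * (lam * X / M)) * (2 * C₃ * θ * X) = θ * (5 / 2 * lam * C₃ * X ^ 2 / M) := by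
    ring
  have h3 : 0 ≤ 5 / 2 * lam * C₃ * X ^ 2 / M := by positivity
  have h4 := mul_le_mul_of_nonneg_right hθ1 h3
  rw [h2] at h1
  linarith

theorem contract [NeZero d] {c₂ C₁ lam C₃ η θ : ℝ} (hp : Par d c₂ C₁ lam C₃ η θ)
    {M n X b₂ : ℝ} (hM : 0 < M) (hn1 : θ * M ≤ 2 * n) (hn2 : n ≤ θ * M) (hX : 0 < X)
    (hb : b₂ * (4 * M) ≤ lam * θ * X ^ 2)
    {e w u : Fin d → ℝ} {q : Fin d → Bool → Fin d → ℝ} {τ : ℝ}
    (hτ : τ = 5 * Real.sqrt d * lam * X / M)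
    (hq : ∀ k b, nm (q k b - (sg b * τ) • (Pi.single k (1 : ℝ) : Fin d → ℝ)) ≤ η * τ)
    (hcase : (nm e ≤ X / 2 ∧ u = 0) ∨ (X / 2 < nm e ∧ nm e ≤ X ∧
      nm (u - (lam / M) • e) ≤ η * nm ((lam / M) • e)))
    (H1 : ∀ k b, ip (q k b - u) w ≤ n * (C₁ * sq (q k b)) + b₂)
    (H2 : n * (c₂ * sq u) ≤ ip u w + b₂) :
    sq (e - w) ≤ (1 - 3 * θ) * X ^ 2 ∧ nm u * nm w ≤ 5 / 2 * lam * C₃ * X ^ 2 / M := by
  have hd : (1 : ℝ) ≤ d := by exact_mod_cast NeZero.one_le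
  have hs1 : 1 ≤ Real.sqrt d := by rw [Real.one_le_sqrt]; exact hd
  have hs0 : 0 < Real.sqrt d := by linarith
  have hss : Real.sqrt d * Real.sqrt d = d := Real.mul_self_sqrt (by linarith)
  have hl := hp.lam_pos
  have hC3 := hp.C3_ge
  have hC30 : 0 ≤ C₃ := by linarith
  have hη0 := hp.hη0
  have hη4 : η ≤ 1 / 4 := by
    have h1 := hp.hη1
    have h2 : η * 4 ≤ η * (4 * Real.sqrt d) := mul_le_mul_of_nonneg_left (by linarith) hη0.le
    linarith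
  have hθ0 := hp.hθ0
  have hθ1 := hp.hθ1
  have hC10 : 0 < C₁ := lt_of_lt_of_le hp.hc2 hp.hC1
  have hn0 : 0 < n := by
    have : 0 < θ * M := by positivity
    linarith
  have hτ0 : 0 < τ := by rw [hτ]; positivity
  obtain ⟨t, ht⟩ : ∃ t : Fin d → ℝ, t = (lam / M) • e := ⟨_, rfl⟩
  rw [← ht] at hcase
  have hlM : 0 < lam / M := by positivity
  have hnt : nm t = lam / M * nm e := by rw [ht, nm_smul, abs_of_pos hlM]
  have ht0 := nm_nn t
  have he0 := nm_nn e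
  have hw0 := nm_nn w
  -- the bound for `u`
  have hu : nm u ≤ 5 / 4 * (lam * X / M) := by
    rcases hcase with ⟨-, h2⟩ | ⟨-, h2, h3⟩
    · rw [h2]
      have : nm (0 : Fin d → ℝ) = 0 := by unfold nm sq; simp
      rw [this]; positivity
    · have h4 : nm u ≤ nm (u - t) + nm t := by
        have := nm_add (u - t) t
        rwa [sub_add_cancel] at this
      have h5 : nm t ≤ lam * X / M := by
        rw [hnt]
        calc lam / M * nm e ≤ lam / M * X := mul_le_mul_of_nonneg_left h2 hlM.le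
          _ = lam * X / M := by ring
      have h6 : η * nm t ≤ 1 / 4 * nm t := mul_le_mul_of_nonneg_right hη4 ht0
      linarith
  have hu4 : nm u * (4 * Real.sqrt d) ≤ τ := by
    rw [hτ]
    have := mul_le_mul_of_nonneg_right hu (show (0 : ℝ) ≤ 4 * Real.sqrt d by linarith)
    refine this.trans (le_of_eq ?_)
    ring
  have hqs : ∀ k b, sq (q k b) ≤ 25 / 16 * τ ^ 2 := by
    intro k b
    have h1 := hq k b
    have h2 : nm (q k b) ≤ 5 / 4 * τ := by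
      have h3 := nm_add (q k b - (sg b * τ) • (Pi.single k (1 : ℝ) : Fin d → ℝ))
        ((sg b * τ) • (Pi.single k (1 : ℝ) : Fin d → ℝ))
      rw [sub_add_cancel, nm_single, abs_mul, abs_sg, one_mul, abs_of_pos hτ0] at h3
      have h4 : η * τ ≤ 1 / 4 * τ := mul_le_mul_of_nonneg_right hη4 hτ0.le
      linarith
    rw [← nm_sq]
    have h3 := pow_le_pow_left₀ (nm_nn _) h2 2
    have h4 : (5 / 4 * τ) ^ 2 = 25 / 16 * τ ^ 2 := by ring
    rwa [h4] at h3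
  have hdb := disp_bound (w := w) (u := u) (q := q) hτ0 hp.hη1 hq hu4
    (B₁ := n * (C₁ * (25 / 16 * τ ^ 2)) + b₂) (fun k b => (H1 k b).trans (by
      have h1 : C₁ * sq (q k b) ≤ C₁ * (25 / 16 * τ ^ 2) :=
        mul_le_mul_of_nonneg_left (hqs k b) hC10.le
      have h2 := mul_le_mul_of_nonneg_left h1 hn0.le
      linarith))
  have e1 : τ * M = 5 * Real.sqrt d * lam * X := by rw [hτ]; field_simp
  have hw := wb hss hs0 hp.hC3 hC3 hC10 hl hθ0 hM hX hτ0 e1 hn2 hb hdb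
  have hCθ : 8 * (θ * C₃) ≤ 1 := by
    have h1 := hp.hθ2
    have h3 : C₃ * 1 ≤ C₃ * C₃ := mul_le_mul_of_nonneg_left hC3 hC30
    have h2 : θ * (C₃ * 1) ≤ θ * (C₃ * C₃) := mul_le_mul_of_nonneg_left h3 hθ0.le
    have h4 : θ * (8 * C₃ ^ 2) = 8 * (θ * (C₃ * C₃)) := by ring
    rw [h4] at h1
    linarith
  refine ⟨?_, prodb hl hC30 hθ0.le (by linarith) hM hX hw0 hu hw⟩
  rcases hcase with ⟨h1, -⟩ | ⟨h1, h2, h3⟩
  · rw [← nm_sq]
    exact casea hθ1 hCθ hX.le h1 hw (nm_nn _) (nm_sub e w)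
  · have h4 : nm t ≤ nm u + nm (u - t) := by
      have := nm_sub u (u - t)
      rwa [sub_sub_cancel] at this
    have h5 : 9 / 16 * nm t ^ 2 ≤ sq u := by
      rw [← nm_sq]
      exact lowsq hη4 ht0 h3 h4
    have h6 := (abs_le.1 (ip_cs (u - t) w)).2
    rw [ip_sub_left] at h6
    have h7 : nm (u - t) * nm w ≤ 1 / 16 * c₂ * n * nm t ^ 2 :=
      (mul_le_mul h3 hw hw0 (by positivity)).trans
        (errb hp.hC3 hC30 hl hη0.le hp.hη2 hθ0.le hM hn0.le hn1 hnt he0 (by linarith))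
    have h8 : 1 / 2 * c₂ * n * nm t ^ 2 - b₂ ≤ ip t w := by
      have a1 : n * (c₂ * (9 / 16 * nm t ^ 2)) ≤ n * (c₂ * sq u) :=
        mul_le_mul_of_nonneg_left (mul_le_mul_of_nonneg_left h5 hp.hc2.le) hn0.le
      have a2 : n * (c₂ * (9 / 16 * nm t ^ 2)) = 9 / 16 * c₂ * n * nm t ^ 2 := by ring
      rw [a2] at a1
      linarith
    have h9 : ip t w = lam / M * ip e w := by rw [ht, ip_smul_left]
    rw [h9, hnt] at h8
    have h10 := drb hl hp.hlam hM hn1 hb h8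
    rw [sq_sub, ← nm_sq e, ← nm_sq w]
    exact lastb hθ0.le hθ1 hp.hθ2 he0 h2 hw0 hw h10

end Pool.Agent.K1H53.KD
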