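import Pool.Agent.K1H53.KD.Plan3
import Mathlib

/-!
Aleksandrov's theorem: statements.
-/

open MeasureTheory Set Filter
open scoped Topology

set_option linter.unusedSectionVars false

namespace Pool.Agent.K1H53.KD

/-- Aleksandrov's theorem: a finite convex function on `ℝ^d` has a second order expansion at almost
every point -/
def S_alex (d : ℕ) : Prop := ∀ p : (Fin d → ℝ) → ℝ, ConvexOn ℝ univ p →
  ∀ᵐ h : Fin d → ℝ, ∃ (v : Fin d → ℝ) (Q : Matrix (Fin d) (Fin d) ℝ), Q.PosSemidef ∧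
    ∀ ε : ℝ, 0 < ε → ∃ δ : ℝ, 0 < δ ∧ ∀ t : Fin d → ℝ, sq t ≤ δ ^ 2 →
      |p (h + t) - (p h + ip v t + 1 / 2 * (t ⬝ᵥ Q.mulVec t))| ≤ ε * sq t

/-- positive definite quadratic forms are bounded from below -/
def S_pd (d : ℕ) : Prop := ∀ Q : Matrix (Fin d) (Fin d) ℝ, Q.PosSemidef → Q.det ≠ 0 →
  ∃ c : ℝ, 0 < c ∧ ∀ t : Fin d → ℝ, c * sq t ≤ t ⬝ᵥ Q.mulVec t

end Pool.Agent.K1H53.KD
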