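import Pool.Agent.K1H53.KD.Typ
import Pool.Agent.K1H53.KD.Plan4

/-!
The relation between the exponents at almost every drift in every dimension.
-/

open MeasureTheory ProbabilityTheory Set Filter TH967.DP
open scoped Topology

set_option linter.unusedSectionVars false

namespace Pool.Agent.K1H53.KD

open Pool.Agent.K1H38.DP

variable {d : ℕ} {Ω : Type*} [MeasurableSpace Ω] {P : Measure Ω} [IsProbabilityMeasure P]
  {ω : ℕ → (Fin d → ℤ) → Ω → ℝ}

theorem final [NeZero d] (he : IsEnv P ω) (hexp : HasExp P ω) (β : ℝ) {p : (Fin d → ℝ) → ℝ}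
    (hconv : ConvexOn ℝ univ p) (hcont : Continuous p) (hp : IsP P ω β p) :
    ∀ᵐ h : Fin d → ℝ, ∃ v : Fin d → ℝ, (∀ t : Fin d → ℝ, p h + ip v t ≤ p (h + t)) ∧
      (∃ C r : ℝ, 0 < r ∧ ∀ t : Fin d → ℝ, sq t ≤ r ^ 2 → p (h + t) ≤ p h + ip v t + C * sq t) ∧
      nu P ω β h v ≤ (1 + chi P ω β h) / 2 ∧
      ((∃ c r : ℝ, 0 < c ∧ 0 < r ∧ ∀ t : Fin d → ℝ, sq t ≤ r ^ 2 →
        p h + ip v t + c * sq t ≤ p (h + t)) → chi P ω β h = 2 * nu P ω β h v - 1 ∧
        (1 + chi P ω β h) * chiTyp P ω β h ≤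
          2 * chi P ω β h * K1H38.DP.wanderingExp P ω β h v) ∧
      (d = 1 → 0 < β → (¬ ∃ c : ℝ, ∀ᵐ x ∂P, ω 1 0 x = c) →
        (1 - nu P ω β h v) / 2 ≤ chi P ω β h) := by
  have hd : ∀ᵐ h : Fin d → ℝ, ∀ c s C : ℚ, h ∈ TE P ω β c s C → ∀ η : ℝ, 0 < η → ∃ r' : ℝ,
      0 < r' ∧ ∀ t : Fin d → ℝ, sq t ≤ r' ^ 2 →
        ∃ g ∈ TE P ω β c s C, sq (g - (h + t)) ≤ η ^ 2 * sq t := by
    rw [ae_all_iff]; intro c
    rw [ae_all_iff]; intro s
    rw [ae_all_iff]; intro C
    exact K1H8.KD.t_dens _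
  filter_upwards [hd, H7.t_slope p hconv hcont] with h hd ha
  obtain ⟨v, C₁, r₁, hC1, hr1, hr1', hup, hsub⟩ := ha
  refine ⟨v, hsub, ⟨C₁, r₁, hr1, hup⟩, ?_⟩
  set χ := chi P ω β h with hχ
  set ν := nu P ω β h v with hν
  have hχ2 : χ ≤ 1 / 2 := chi_half he hexp β h
  have hχ0 : 0 ≤ χ := chi_nonneg β h
  have good : ∀ c s C : ℚ, h ∈ TE P ω β c s C → ∀ r : ℝ, 0 < r → r ≤ r₁ →
      Good (TE P ω β c s C) p h v C₁ r := by
    intro c s C hh r hr hr'
    exact ⟨hr, hr'.trans hr1', hC1, hh, fun t ht => hup t (ht.trans (by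
      exact pow_le_pow_left₀ hr.le hr' 2)), hsub, hd c s C hh⟩
  have hup3 := K1H38.KD.t_upper he hexp β hp
  -- the upper half
  have upper : ∀ a : ℝ, (1 + χ) / 2 < a → a < 1 → a ∈ ConfSet P ω β h v := by
    intro a ha ha1
    obtain ⟨c, hc, hcb⟩ := exists_tail' he hexp (β := β) (h := h) (b := 2 * a - 1)
      (by rw [← hχ]; linarith)
    obtain ⟨c', s', C', h1, h2, h3, h4⟩ := TE_of_tail he hexp hc hcb
    exact hup3 c' s' C' (lt_trans hc.1 h1) (by linarith) h3 h v _ r₁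
      (good c' s' C' h4 r₁ hr1 le_rfl) a (by linarith) ha1
  have hνu : ν ≤ (1 + χ) / 2 := by
    apply le_of_forall_gt_imp_ge_of_dense
    intro b hb
    obtain ⟨a, ha1, ha2⟩ := exists_between (show (1 + χ) / 2 < min b 1 from
      lt_min hb (by linarith))
    exact (nu_le (upper a ha1 (lt_of_lt_of_le ha2 (min_le_right _ _)))).trans
      (ha2.le.trans (min_le_left _ _))
  have hne : (ConfSet P ω β h v).Nonempty := by
    obtain ⟨a, ha1, ha2⟩ := exists_between (show (1 + χ) / 2 < 1 by linarith)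
    exact ⟨a, upper a ha1 ha2⟩
  have hneT : (TailSet P ω β h).Nonempty := ⟨1, mem_tailset he hexp β h (by norm_num) le_rfl⟩
  refine ⟨hνu, ?_, ?_⟩
  · rintro ⟨c₂, r₂, hc2, hr2, hlow⟩
    set r := min r₁ r₂ with hr
    have hr0 : 0 < r := lt_min hr1 hr2
    have hlow' : ∀ t : Fin d → ℝ, sq t ≤ r ^ 2 → p h + ip v t + c₂ * sq t ≤ p (h + t) := by
      intro t ht
      exact hlow t (ht.trans (pow_le_pow_left₀ hr0.le (min_le_right _ _) 2))
    have hv := vsum he hexp hp hc2 hr0 hlow'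
    have hZ : ZApi d := K1H39.KD.zapi
    have hpp := t_pp he hexp hZ (K1H52.KD.t_union he hexp β) (K1H52.KD.t_max he hexp)
      (K1H38.KD.t_mean he hexp β hp) hp
    -- tails of the point-to-point free energies
    have tails : ∀ a b : ℝ, χ < b → b ≤ 2 * a - 1 → a < 1 →
        (∀ ρ : ℝ, 0 < ρ → ∃ f : ℕ → ℝ, ∃ K s' C' : ℝ, 0 < K ∧ 0 < s' ∧ 0 ≤ C' ∧
        ∀ N : ℕ, 1 ≤ N → P.real (PPbad P ω β h v N (ρ * (N : ℝ) ^ a) (K * (N : ℝ) ^ (2 * a - 1))
          (f N)) ≤ C' * Real.exp (-(N : ℝ) ^ s')) := by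
      intro a b hb hba ha ρ hρ
      obtain ⟨c, hc, hcb⟩ := exists_tail' he hexp (β := β) (h := h) (b := b) hb
      obtain ⟨c', s', C', h1, h2, h3, h4⟩ := TE_of_tail he hexp hc hcb
      obtain ⟨K, s'', C'', k1, k2, k3, k4⟩ := hpp c' s' C' (lt_trans hc.1 h1) (by linarith) h3 h v
        C₁ c₂ r (good c' s' C' h4 r hr0 (min_le_left _ _)) hc2 hlow' a ρ (by linarith) ha hρ
      exact ⟨fun N => N * p h, K, s'', C'', k1, k2, k3, k4⟩
    -- the lower half
    have hνl : (1 + χ) / 2 ≤ ν := by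
      apply le_csInf hne
      intro κ hκ
      by_contra hcon
      push Not at hcon
      have hκ0 : 0 < κ := hκ.1
      rcases hχ0.eq_or_lt with h0 | h0
      · -- the case `χ = 0`
        obtain ⟨-, s₀, C₀, hs₀, H⟩ := hκ
        have hm : 0 < min s₀ 1 := lt_min hs₀ one_pos
        set a := 1 / 2 + min s₀ 1 / 4 with ha
        have ha1 : 2 * a - 1 = min s₀ 1 / 2 := by rw [ha]; ring
        have hs1 : min s₀ 1 ≤ s₀ := min_le_left _ _
        have hs2 : min s₀ 1 ≤ 1 := min_le_right _ _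
        exact K1H31.KD.t_zero he β hZ h v a κ s₀ C₀ hv (by linarith) (by linarith) hκ0
          (by linarith) (by linarith) H
          (tails a (2 * a - 1) (by rw [ha1, ← h0]; linarith) le_rfl (by linarith))
      · obtain ⟨a, ha1, ha2, ha3⟩ : ∃ a : ℝ, (1 + χ) / 2 < a ∧ a < 1 ∧ κ * (2 * a - 1) / a < χ := by
          rcases le_or_gt (2 * κ - χ) 0 with h0' | h0'
          · obtain ⟨a, ha1, ha2⟩ := exists_between (show (1 + χ) / 2 < 1 by linarith)
            refine ⟨a, ha1, ha2, ?_⟩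
            have ha0 : 0 < a := by linarith
            rw [div_lt_iff₀ ha0]
            nlinarith
          · have h1 : (1 + χ) / 2 < κ / (2 * κ - χ) := by
              rw [lt_div_iff₀ h0']
              nlinarith
            obtain ⟨a, ha1, ha2⟩ := exists_between
              (show (1 + χ) / 2 < min (κ / (2 * κ - χ)) 1 from lt_min h1 (by linarith))
            refine ⟨a, ha1, lt_of_lt_of_le ha2 (min_le_right _ _), ?_⟩
            have ha0 : 0 < a := by linarith
            have ha3 := lt_of_lt_of_le ha2 (min_le_left _ _)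
            rw [lt_div_iff₀ h0'] at ha3
            rw [div_lt_iff₀ ha0]
            nlinarith
        obtain ⟨c₁, hc₁, hc₂⟩ := exists_between ha3
        obtain ⟨c₃, hc₃, hc₄⟩ := exists_between hc₂
        have hc₁0 : 0 < c₁ := lt_trans (div_pos (mul_pos hκ0 (by linarith)) (by linarith)) hc₁
        have hlw := K1H52.KD.t_low he hexp β hZ (K1H54.KD.t_two he) h v a κ c₁ hv
          (by linarith) ha2 hκ0 (by linarith) hκ hc₁ (tails a (2 * a - 1) (by linarith) le_rfl ha2)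
        have := K1H54.KD.t_center he hexp β h c₁ hc₁0 hlw c₃ hc₃
        have := chi_le this
        linarith
    exact ⟨by linarith, typ_rel he hexp hZ hv tails⟩
  · -- anti-concentration
    intro hd1 hβ hnc
    apply le_csInf hneT
    intro c hc
    have h1 : 1 - 2 * c ≤ ν := by
      rcases le_or_gt 1 ν with h2 | h2
      · have := hc.1
        linarith
      · by_contra hcon
        push Not at hcon
        obtain ⟨a, ha, ha'⟩ := exists_lt_of_csInf_lt hne
          (show sInf (ConfSet P ω β h v) < min (1 - 2 * c) 1 from lt_min hcon h2)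
        have := K1H54.KD.t_anti he hexp β hd1 hβ hnc h v c a hc ha
          (lt_of_lt_of_le ha' (min_le_right _ _))
        have := lt_of_lt_of_le ha' (min_le_left _ _)
        linarith
    linarith


/-- the limit of the mean free energies -/
lemma lim_mean [NeZero d] (he : IsEnv P ω) (hexp : HasExp P ω) (β : ℝ) {p : (Fin d → ℝ) → ℝ}
    (hp : IsP P ω β p) (h : Fin d → ℝ) :
    Tendsto (fun n : ℕ => (∫ x, Real.log (Zn β h (fun i y => ω i y x) n) ∂P) / n) atTop
      (𝓝 (p h - Real.log (2 * d))) := by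
  obtain ⟨s, C, hs, -, ht⟩ := tail_half he hexp β (c := 3 / 4) (by norm_num) (by norm_num)
  obtain ⟨A, hA, hL⟩ := K1H38.KD.t_mean he hexp β hp (3 / 4) s C (by norm_num) (by norm_num) hs h
    (fun n hn => ht n hn h)
  have h1 := hL h (fun n hn => ht n hn h) (fun k => by simp)
  have e1 : Tendsto (fun n : ℕ => A * (n : ℝ) ^ (-(1 / 4) : ℝ)) atTop (𝓝 0) := by
    have h2 : Tendsto (fun n : ℕ => (n : ℝ) ^ (-(1 / 4) : ℝ)) atTop (𝓝 0) :=
      (tendsto_rpow_neg_atTop (by norm_num)).comp tendsto_natCast_atTop_atTop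
    have h3 := h2.const_mul A
    rwa [mul_zero] at h3
  have e2 : Tendsto (fun n : ℕ => Lm P ω β h n / n - p h) atTop (𝓝 0) := by
    apply squeeze_zero_norm' _ e1
    filter_upwards [eventually_ge_atTop 1] with n hn
    have hn0 : (0 : ℝ) < n := by exact_mod_cast hn
    have h2 : Lm P ω β h n / n - p h = (Lm P ω β h n - n * p h) / n := by field_simp
    rw [h2, Real.norm_eq_abs, abs_div, abs_of_pos hn0, div_le_iff₀ hn0]
    refine (h1 n).trans (le_of_eq ?_)
    have h3 : (n : ℝ) ^ (3 / 4 : ℝ) = (n : ℝ) ^ (-(1 / 4) : ℝ) * n := by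
      rw [← Real.rpow_add_one hn0.ne']
      norm_num
    rw [h3]; ring
  have e3 : Tendsto (fun n : ℕ => Lm P ω β h n / n - p h + (p h - Real.log (2 * d))) atTop
      (𝓝 (0 + (p h - Real.log (2 * d)))) := e2.add_const _
  rw [zero_add] at e3
  refine e3.congr' ?_
  filter_upwards [eventually_ge_atTop 1] with n hn
  have hn0 : (0 : ℝ) < n := by exact_mod_cast hn
  rw [mean_Zn he hexp, Real.log_pow]
  field_simp
  ring

/-- two gradients coincide -/
lemma grad_eq {p : (Fin d → ℝ) → ℝ} {h v v' : Fin d → ℝ}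
    (h1 : ∀ t : Fin d → ℝ, p h + ip v t ≤ p (h + t)) {C δ : ℝ} (hδ : 0 < δ)
    (h2 : ∀ t : Fin d → ℝ, sq t ≤ δ ^ 2 → p (h + t) ≤ p h + ip v' t + C * sq t) : v = v' := by
  set u := v - v' with hu
  have key : ∀ s : ℝ, 0 < s → nm (s • u) ≤ δ → sq u ≤ C * s * sq u := by
    intro s hs hsd
    have a1 := h1 (s • u)
    have a2 := h2 (s • u) (by rwa [nm_le hδ.le] at hsd)
    have a3 : sq (s • u) = s ^ 2 * sq u := by
      rw [← nm_sq, nm_smul, mul_pow, nm_sq, sq_abs]
    have a4 : ip v (s • u) - ip v' (s • u) = s * sq u := by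
      rw [← ip_sub_left, ← hu, ip_comm, ip_smul_left]
      congr 1
      unfold ip sq
      apply Finset.sum_congr rfl
      intro k _
      ring
    rw [a3] at a2
    have a5 : s * sq u ≤ s * (C * s * sq u) := by nlinarith
    exact le_of_mul_le_mul_left a5 hs
  have h0 : sq u ≤ 0 := by
    have t1 : Tendsto (fun n : ℕ => C * (1 / ((n : ℝ) + 1)) * sq u) atTop (𝓝 (C * 0 * sq u)) :=
      (tendsto_one_div_add_atTop_nhds_zero_nat.const_mul C).mul_const _
    rw [mul_zero, zero_mul] at t1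
    have t2 : Tendsto (fun n : ℕ => 1 / ((n : ℝ) + 1) * nm u) atTop (𝓝 (0 * nm u)) :=
      tendsto_one_div_add_atTop_nhds_zero_nat.mul_const _
    rw [zero_mul] at t2
    refine ge_of_tendsto t1 ?_
    filter_upwards [t2.eventually_lt_const hδ] with n hn
    have hn0 : (0 : ℝ) < 1 / ((n : ℝ) + 1) := by positivity
    apply key _ hn0
    rw [nm_smul, abs_of_pos hn0]
    exact hn.le
  have h3 : u = 0 := by
    funext k
    have h4 : u k ^ 2 ≤ sq u :=
      Finset.single_le_sum (f := fun k => u k ^ 2) (fun _ _ => sq_nonneg _) (Finset.mem_univ k)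
    have h5 : u k ^ 2 = 0 := le_antisymm (h4.trans h0) (sq_nonneg _)
    simpa using h5
  exact sub_eq_zero.1 h3

theorem final2 [NeZero d] (he : IsEnv P ω) (hexp : HasExp P ω) (β : ℝ) (hA : S_alex d)
    (hD : S_pd d) :
    ∃ p : (Fin d → ℝ) → ℝ, ConvexOn ℝ univ p ∧
      (∀ h : Fin d → ℝ, Tendsto (fun n : ℕ => (∫ x, Real.log (Zn β h (fun i y => ω i y x) n) ∂P) / n)
        atTop (𝓝 (p h))) ∧
      ∀ᵐ h : Fin d → ℝ, ∃ (v : Fin d → ℝ) (Q : Matrix (Fin d) (Fin d) ℝ), Q.PosSemidef ∧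
        (∀ ε : ℝ, 0 < ε → ∃ δ : ℝ, 0 < δ ∧ ∀ t : Fin d → ℝ, sq t ≤ δ ^ 2 →
          |p (h + t) - (p h + ip v t + 1 / 2 * (t ⬝ᵥ Q.mulVec t))| ≤ ε * sq t) ∧
        0 ≤ chi P ω β h ∧ chi P ω β h ≤ 1 / 2 ∧ 2 * nu P ω β h v - 1 ≤ chi P ω β h ∧
        (Q.det ≠ 0 → chi P ω β h = 2 * nu P ω β h v - 1 ∧
          (1 + chi P ω β h) * chiTyp P ω β h ≤
            2 * chi P ω β h * K1H38.DP.wanderingExp P ω β h v) ∧
        (d = 1 → 0 < β → (¬ ∃ c : ℝ, ∀ᵐ x ∂P, ω 1 0 x = c) →
          (1 - nu P ω β h v) / 2 ≤ chi P ω β h ∧ 1 / 5 ≤ chi P ω β h ∧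
          (Q.det ≠ 0 → 3 / 5 ≤ nu P ω β h v)) := by
  obtain ⟨p, hp, hconv, hcont⟩ := exists_p he hexp β
  refine ⟨fun h => p h - Real.log (2 * d), ?_, lim_mean he hexp β hp, ?_⟩
  · refine ⟨convex_univ, fun x hx y hy a b ha hb hab => ?_⟩
    have h1 := hconv.2 hx hy ha hb hab
    simp only [smul_eq_mul] at h1 ⊢
    have h2 : Real.log (2 * d) = a * Real.log (2 * d) + b * Real.log (2 * d) := by
      rw [← add_mul, hab, one_mul]
    linarith
  · filter_upwards [final he hexp β hconv hcont hp, hA p hconv] with h hh ha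
    obtain ⟨v, h1, -, h3, h4, h5⟩ := hh
    obtain ⟨v', Q, hQ, hexpn⟩ := ha
    have hup : ∃ C δ : ℝ, 0 < δ ∧ ∀ t : Fin d → ℝ, sq t ≤ δ ^ 2 →
        p (h + t) ≤ p h + ip v' t + C * sq t := by
      obtain ⟨δ, hδ, H⟩ := hexpn 1 one_pos
      refine ⟨1 + 1 / 2 * ∑ j, ∑ k, |Q j k|, δ, hδ, fun t ht => ?_⟩
      have a1 := (abs_le.1 (H t ht)).2
      have a2 : t ⬝ᵥ Q.mulVec t ≤ (∑ j, ∑ k, |Q j k|) * sq t := by
        unfold Matrix.mulVec dotProduct
        rw [Finset.sum_mul]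
        apply Finset.sum_le_sum
        intro j _
        rw [Finset.sum_mul, Finset.mul_sum]
        apply Finset.sum_le_sum
        intro k _
        have b1 := abs_le_nm t j
        have b2 := abs_le_nm t k
        have b3 : |t j| * |t k| ≤ nm t * nm t := mul_le_mul b1 b2 (abs_nonneg _) (nm_nn _)
        have b4 : nm t * nm t = sq t := by rw [← nm_sq]; ring
        calc t j * (Q j k * t k) ≤ |t j * (Q j k * t k)| := le_abs_self _
          _ = |Q j k| * (|t j| * |t k|) := by rw [abs_mul, abs_mul]; ring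
          _ ≤ |Q j k| * sq t := by
              rw [← b4]
              exact mul_le_mul_of_nonneg_left b3 (abs_nonneg _)
      linarith
    obtain ⟨C, δ, hδ, hup⟩ := hup
    have hvv : v = v' := grad_eq h1 hδ hup
    subst hvv
    refine ⟨v, Q, hQ, ?_, chi_nonneg β h, chi_half he hexp β h, by linarith, ?_, ?_⟩
    · intro ε hε
      obtain ⟨δ, hδ, H⟩ := hexpn ε hε
      refine ⟨δ, hδ, fun t ht => ?_⟩
      have := H t ht
      have e : p (h + t) - Real.log (2 * d) - (p h - Real.log (2 * d) + ip v t +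
          1 / 2 * (t ⬝ᵥ Q.mulVec t)) = p (h + t) - (p h + ip v t + 1 / 2 * (t ⬝ᵥ Q.mulVec t)) := by
        ring
      rw [e]
      exact this
    · intro hdet
      apply h4
      obtain ⟨c, hc, hcQ⟩ := hD Q hQ hdet
      obtain ⟨δ, hδ, H⟩ := hexpn (c / 4) (by positivity)
      refine ⟨c / 4, δ, by positivity, hδ, fun t ht => ?_⟩
      have a1 := (abs_le.1 (H t ht)).1
      have a2 := hcQ t
      linarith
    · intro hd1 hβ hnc
      have h6 := h5 hd1 hβ hnc
      refine ⟨h6, by linarith, fun hdet => ?_⟩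
      have h7 : chi P ω β h = 2 * nu P ω β h v - 1 := by
        refine (h4 ?_).1
        obtain ⟨c, hc, hcQ⟩ := hD Q hQ hdet
        obtain ⟨δ, hδ, H⟩ := hexpn (c / 4) (by positivity)
        refine ⟨c / 4, δ, by positivity, hδ, fun t ht => ?_⟩
        have a1 := (abs_le.1 (H t ht)).1
        have a2 := hcQ t
        linarith
      linarith

end Pool.Agent.K1H53.KD
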