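import Pool.Agent.K1H53.KD.PPMain
import Pool.Agent.K1H52.KD.Low

/-!
The lower half of the relation at every scale, and typical exponents.
-/

open MeasureTheory ProbabilityTheory Set Filter TH967.DP
open scoped Topology

set_option linter.unusedSectionVars false

namespace Pool.Agent.K1H53.KD

open Pool.Agent.K1H38.DP Pool.Agent.K1H52.KD Pool.Agent.K1H53.KZ

variable {d : ℕ} {Ω : Type*} [MeasurableSpace Ω] {P : Measure Ω} [IsProbabilityMeasure P]
  {ω : ℕ → (Fin d → ℤ) → Ω → ℝ}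

/-- the lower half of the relation at every scale: the fluctuations of the free energy are bounded
in terms of the mean probability of the exit from a tube -/
theorem low_all [NeZero d] (he : IsEnv P ω) (β : ℝ) (hZ : ZApi d)
    (h2 : S_two P ω) (h v : Fin d → ℝ) (a κ c' : ℝ) (hv : (∑ k, |v k|) < 1) (ha : 1 < 2 * a)
    (ha1 : a < 1) (hκ : 0 < κ) (hκa : κ < a) (hc' : κ * (2 * a - 1) / a < c')
    (hPP : ∀ ρ : ℝ, 0 < ρ → ∃ f : ℕ → ℝ, ∃ K s' C' : ℝ, 0 < K ∧ 0 < s' ∧ 0 ≤ C' ∧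
      ∀ N : ℕ, 1 ≤ N → P.real (PPbad P ω β h v N (ρ * (N : ℝ) ^ a) (K * (N : ℝ) ^ (2 * a - 1))
        (f N)) ≤ C' * Real.exp (-(N : ℝ) ^ s')) :
    ∃ s C : ℝ, 0 < s ∧ 0 ≤ C ∧ ∀ᶠ n : ℕ in atTop, ∃ m : ℝ,
      P.real {x | (n : ℝ) ^ c' < |Real.log (Zd β h (fld ω x) n) - m|} ≤
        C * Real.exp (-(n : ℝ) ^ s) +
          6 * ∫ x, (1 - frProb β h (fun i y => ω i y x) (tube n v ((n : ℝ) ^ κ))) ∂P := by
  obtain ⟨f, K, s', C', hK, hs', hC', hpp⟩ := hPP 1 one_pos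
  have h2a : 0 < 2 * a - 1 := by linarith
  have ha0 : 0 < a := by linarith
  have hvm : 0 < 1 - ∑ k, |v k| := by linarith
  have e1 : κ / a < min 1 (c' / (2 * a - 1)) := by
    apply lt_min
    · rw [div_lt_one ha0]; exact hκa
    · rw [div_lt_div_iff₀ ha0 h2a]
      rw [div_lt_iff₀ ha0] at hc'
      linarith
  obtain ⟨σ, hσ1, hσ2⟩ := exists_between e1
  have hσ0 : 0 < σ := lt_trans (by positivity) hσ1
  have hσ3 : σ < 1 := lt_of_lt_of_le hσ2 (min_le_left _ _)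
  have hσ4 : σ * (2 * a - 1) < c' := by
    have := lt_of_lt_of_le hσ2 (min_le_right _ _)
    rwa [lt_div_iff₀ h2a] at this
  have hσ5 : κ < σ * a := by rwa [div_lt_iff₀ ha0] at hσ1
  have hc'0 : 0 < c' := lt_trans (by positivity) hσ4
  set S : ℕ → ℕ := fun n => ⌊(n : ℝ) ^ σ⌋₊ with hS
  have hpow : Tendsto (fun n : ℕ => (n : ℝ) ^ σ) atTop atTop :=
    (tendsto_rpow_atTop hσ0).comp tendsto_natCast_atTop_atTop
  have TS : Tendsto S atTop atTop := tendsto_nat_floor_atTop.comp hpow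
  have hSle : ∀ n : ℕ, (S n : ℝ) ≤ (n : ℝ) ^ σ := fun n =>
    Nat.floor_le (Real.rpow_nonneg (Nat.cast_nonneg n) _)
  have hSge : ∀ᶠ n : ℕ in atTop, (n : ℝ) ^ σ / 2 ≤ S n := by
    filter_upwards [hpow.eventually_ge_atTop 2] with n hn
    have := Nat.lt_floor_add_one ((n : ℝ) ^ σ)
    simp only [hS]
    linarith
  have hS2 : ∀ᶠ n : ℕ in atTop, 1 * (n : ℝ) ^ σ + 0 ≤ (n : ℝ) ^ (1 : ℝ) :=
    pow_lt_ev hσ3 one_pos
  set s₃ := σ / 2 * s' with hs₃
  have hs₃0 : 0 < s₃ := by rw [hs₃]; positivity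
  have A1 : ∀ᶠ n : ℕ in atTop, Real.exp (-(S n : ℝ) ^ s') ≤ Real.exp (-(n : ℝ) ^ s₃) := by
    have h2 := scale_se (s := s') (τ := σ) hs' (τ' := σ / 2) (by linarith)
      (u := fun n => (S n : ℝ)) hSge
    filter_upwards [h2, eventually_ge_atTop 1] with n h4 h5
    exact h4
  have B1 : ∀ᶠ n : ℕ in atTop, (3 * (2 : ℝ) ^ a) * (n : ℝ) ^ κ + 2 * (2 : ℝ) ^ a ≤
      (n : ℝ) ^ (σ * a) := pow_lt_ev hσ5 (by positivity)
  have B2 : ∀ᶠ n : ℕ in atTop, (((d : ℝ) + 2) / (1 - ∑ k, |v k|)) * (S n : ℝ) ^ a + 0 ≤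
      (S n : ℝ) ^ (1 : ℝ) := TS.eventually (pow_lt_ev ha1 one_pos)
  have B3 : ∀ᶠ n : ℕ in atTop, (2 * K) * (n : ℝ) ^ (σ * (2 * a - 1)) + 2 ≤ (n : ℝ) ^ c' :=
    pow_lt_ev hσ4 hc'0
  refine ⟨s₃, 2 * C', hs₃0, by positivity, ?_⟩
  · · filter_upwards [A1, B1, B2, B3, hSge, hS2, TS.eventually_ge_atTop 1,
        eventually_ge_atTop 1] with n a1 b1 b2 b3 hsge hs2 hS1 hn1
      have hnR : (0 : ℝ) < n := by exact_mod_cast hn1
      set s := S n with hs
      have hsR : (0 : ℝ) < s := by exact_mod_cast hS1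
      have hsn : s ≤ n := by
        have h1 := hSle n
        rw [Real.rpow_one] at hs2
        have : (s : ℝ) ≤ n := by linarith
        exact_mod_cast this
      obtain ⟨k, hk'⟩ : ∃ k, n = s + k := ⟨n - s, by omega⟩
      set R := (n : ℝ) ^ κ with hR
      have hR0 : 0 ≤ R := by positivity
      have hra : 3 * R + 2 ≤ (s : ℝ) ^ a := by
        have h1 : ((n : ℝ) ^ σ / 2) ^ a ≤ (s : ℝ) ^ a :=
          Real.rpow_le_rpow (by positivity) hsge ha0.le
        rw [Real.div_rpow (by positivity) (by norm_num), ← Real.rpow_mul hnR.le] at h1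
        have h2 : 3 * R + 2 ≤ (n : ℝ) ^ (σ * a) / 2 ^ a := by
          rw [le_div_iff₀ (by positivity)]
          linarith
        linarith
      rw [add_zero, Real.rpow_one, div_mul_eq_mul_div, div_le_iff₀ hvm] at b2
      have hgeo : ((d : ℝ) + 2) * R + 2 ≤ s * (1 - ∑ k, |v k|) := by
        refine le_trans ?_ b2
        have hd : (0 : ℝ) ≤ d := Nat.cast_nonneg d
        nlinarith
      set q := ⌊R⌋₊ + 1 with hq
      have hqR : (q : ℝ) ≤ R + 1 := by
        rw [hq]; push_cast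
        linarith [Nat.floor_le hR0]
      have hqR2 : R < q := by
        rw [hq]; push_cast
        exact Nat.lt_floor_add_one R
      have hwin : ∀ z : Fin d → ℤ, reach s z → K1H53.KD.sq (disp v s z) ≤ R ^ 2 →
          K1H53.KD.sq (disp v s z) ≤ (1 * (s : ℝ) ^ a) ^ 2 ∧
          (reach s (z - Pi.single (0 : Fin d) (2 * (q : ℤ))) ∧
            K1H53.KD.sq (disp v s (z - Pi.single (0 : Fin d) (2 * (q : ℤ)))) ≤
              (1 * (s : ℝ) ^ a) ^ 2) ∧
          (reach s (z + Pi.single (0 : Fin d) (2 * (q : ℤ))) ∧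
            K1H53.KD.sq (disp v s (z + Pi.single (0 : Fin d) (2 * (q : ℤ)))) ≤
              (1 * (s : ℝ) ^ a) ^ 2) := by
        intro z z1 z2
        rw [one_mul]
        refine ⟨z2.trans (pow_le_pow_left₀ hR0 (by linarith) 2), ?_, ?_⟩
        · rw [sub_eq_add_neg, ← Pi.single_neg]
          exact win_one hR0 hqR hra hgeo (by rw [abs_neg, abs_of_nonneg (by positivity)]) z1 z2
        · exact win_one hR0 hqR hra hgeo (by rw [abs_of_nonneg (by positivity)]) z1 z2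
      have hD : ∀ (i : ℕ) (y : Fin d → ℤ), K1H53.KD.sq (disp v i y) ≤ R ^ 2 →
          ¬ K1H53.KD.sq (disp v i (Pi.single (0 : Fin d) (2 * (q : ℤ)) + y)) ≤ R ^ 2 := by
        intro i y hy hcon
        rw [add_comm, disp_add_single] at hcon
        have h3 := abs_le.1 (coord_le hR0 hy 0)
        have h4 := abs_le.1 (coord_le hR0 hcon 0)
        simp only [Pi.single_eq_same] at h4
        push_cast at h4
        linarith [h3.1, h4.2]
      obtain ⟨m, hm⟩ := low_step he hZ h2 (k := k) (β := β) (h := h) (v := v)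
        (B2 := ∫ x, (1 - frProb β h (fun i y => ω i y x) (tube n v ((n : ℝ) ^ κ))) ∂P)
        hR0 hwin hD (hpp s hS1) (by rw [← hk'])
      refine ⟨m, ?_⟩
      have hE0 : 0 < Real.exp (-(n : ℝ) ^ s₃) := Real.exp_pos _
      have t1 : C' * Real.exp (-(s : ℝ) ^ s') ≤ C' * Real.exp (-(n : ℝ) ^ s₃) :=
        mul_le_mul_of_nonneg_left a1 hC'
      refine le_trans (le_trans (measureReal_mono ?_ (measure_ne_top _ _)) hm) (by linarith)
      intro x hx
      have hx' : (n : ℝ) ^ c' < |Real.log (Zd β h (fld ω x) n) - m| := hx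
      rw [hk'] at hx'
      simp only [Set.mem_ofPred_eq]
      refine lt_of_le_of_lt ?_ hx'
      rw [← hk']
      have h5 : (s : ℝ) ^ (2 * a - 1) ≤ (n : ℝ) ^ (σ * (2 * a - 1)) := by
        rw [Real.rpow_mul hnR.le]
        exact Real.rpow_le_rpow hsR.le (hSle n) h2a.le
      have h6 : K * (s : ℝ) ^ (2 * a - 1) ≤ K * (n : ℝ) ^ (σ * (2 * a - 1)) :=
        mul_le_mul_of_nonneg_left h5 hK.le
      linarith


end Pool.Agent.K1H53.KD
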