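import Pool.Agent.K1H53.KD.Plan2

/-!
The relation between the exponents in every dimension: probabilistic inputs of the steering.
-/

open MeasureTheory ProbabilityTheory Set Filter TH967.DP
open scoped Topology

set_option linter.unusedSectionVars false

namespace Pool.Agent.K1H53.KD

open Pool.Agent.K1H38.DP

variable {d : ℕ} {Ω : Type*} [MeasurableSpace Ω]

/-- the bad event of the steering from scale `N` down to scale `N^ε` -/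
def SBad (P : Measure Ω) (ω : ℕ → (Fin d → ℤ) → Ω → ℝ) (β c ε : ℝ)
    (G : ℕ → (Fin d → ℤ) → Option (Option (Fin d × Bool)) → Fin d → ℝ) (N : ℕ) : Set Ω :=
  {x | ∃ M : ℕ, (N : ℝ) ^ ε ≤ M ∧ M ≤ N ∧ ∃ z : Fin d → ℤ, (∀ k, |z k| ≤ (N : ℤ)) ∧
    ∃ j : Option (Option (Fin d × Bool)), ∃ n ≤ M, ∃ T ≤ N, ∃ y : Fin d → ℤ,
    (∀ k, |y k| ≤ (N : ℤ)) ∧
    (M : ℝ) ^ c < |Real.log (Zd β (G M z j) (shift T y (fld ω x)) n) - Lm P ω β (G M z j) n|}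

/-- (9) union bound -/
def S_union (P : Measure Ω) (ω : ℕ → (Fin d → ℤ) → Ω → ℝ) (β : ℝ) : Prop :=
  ∀ c s C ε : ℝ, 0 < c → 0 < s → 0 < ε →
    ∀ G : ℕ → (Fin d → ℤ) → Option (Option (Fin d × Bool)) → Fin d → ℝ,
      (∀ M z j, G M z j ∈ TE P ω β c s C) → ∃ s' C' : ℝ, 0 < s' ∧ 0 ≤ C' ∧
        ∀ N : ℕ, 1 ≤ N → P.real (SBad P ω β c ε G N) ≤ C' * Real.exp (-(N : ℝ) ^ s')

/-- (10) the environment is bounded by `N^ε` on boxes -/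
def S_max (P : Measure Ω) (ω : ℕ → (Fin d → ℤ) → Ω → ℝ) : Prop :=
  ∀ ε : ℝ, 0 < ε → ∃ s' C' : ℝ, 0 < s' ∧ 0 ≤ C' ∧ ∀ N : ℕ, 1 ≤ N →
    P.real {x | ∃ i ≤ N, ∃ y : Fin d → ℤ, (∀ k, |y k| ≤ (N : ℤ)) ∧ (N : ℝ) ^ ε < |ω i y x|} ≤
      C' * Real.exp (-(N : ℝ) ^ s')

/-- (11) the mean free energies are close to linear functions, uniformly -/
def S_mean (P : Measure Ω) (ω : ℕ → (Fin d → ℤ) → Ω → ℝ) (β : ℝ) (p : (Fin d → ℝ) → ℝ) : Prop :=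
  ∀ c s C : ℝ, 0 < c → c < 1 → 0 < s → ∀ h ∈ TE P ω β c s C, ∃ A : ℝ, 0 ≤ A ∧
    ∀ g ∈ TE P ω β c s C, (∀ k, |g k - h k| ≤ 1) → ∀ m : ℕ,
      |Lm P ω β g m - m * p g| ≤ A * (m : ℝ) ^ c

end Pool.Agent.K1H53.KD
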