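import Pool.Agent.K1H53.KD.OneStep
import Pool.Agent.K1H53.KD.Plan3

/-!
The multi-scale steering: lower bounds of the point-to-point free energies.
-/

open Set Filter TH967.DP
open scoped Topology

set_option linter.unusedSectionVars false

namespace Pool.Agent.K1H53.KD

open Pool.Agent.K1H38.DP

variable {d : ℕ}

/-- the conditions on the drifts of scale `M` for the target `z` -/
structure Dr (E : Set (Fin d → ℝ)) (h v : Fin d → ℝ) (r lam η ρ a : ℝ) (M : ℕ) (z : Fin d → ℤ)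
    (G : Option (Option (Fin d × Bool)) → Fin d → ℝ) : Prop where
  non : G none = h
  gr : sq (G (some none) - h) ≤ r ^ 2
  qr : ∀ k b, sq (G (some (some (k, b))) - h) ≤ r ^ 2
  q : ∀ k b, nm (G (some (some (k, b))) - h -
    (sg b * (5 * Real.sqrt d * lam * (ρ * (M : ℝ) ^ a) / M)) •
      (Pi.single k (1 : ℝ) : Fin d → ℝ)) ≤ η * (5 * Real.sqrt d * lam * (ρ * (M : ℝ) ^ a) / M)
  cas : (nm (disp v M z) ≤ ρ * (M : ℝ) ^ a / 2 ∧ G (some none) = h) ∨
    (ρ * (M : ℝ) ^ a / 2 < nm (disp v M z) ∧ nm (disp v M z) ≤ ρ * (M : ℝ) ^ a ∧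
      nm (G (some none) - h - (lam / (M : ℝ)) • disp v M z) ≤
        η * nm ((lam / (M : ℝ)) • disp v M z))

lemma abs_le_nm (t : Fin d → ℝ) (k : Fin d) : |t k| ≤ nm t := by
  unfold nm sq
  apply Real.abs_le_sqrt
  exact Finset.single_le_sum (f := fun k => t k ^ 2) (fun _ _ => sq_nonneg _) (Finset.mem_univ k)

lemma exists_dr [NeZero d] {E : Set (Fin d → ℝ)} {p : (Fin d → ℝ) → ℝ} {h v : Fin d → ℝ}
    {C₁ r : ℝ} (hg : Good E p h v C₁ r) {c₂ C₁' lam C₃ η θ : ℝ} (hp : Par d c₂ C₁' lam C₃ η θ)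
    {ρ a : ℝ} (hρ : 0 < ρ) (ha : a < 1) :
    ∀ᶠ M : ℕ in atTop, ∀ z : Fin d → ℤ, sq (disp v M z) ≤ (ρ * (M : ℝ) ^ a) ^ 2 →
      ∃ G : Option (Option (Fin d × Bool)) → Fin d → ℝ, (∀ j, G j ∈ E) ∧
        (∀ j k, |G j k - h k| ≤ 1) ∧ Dr E h v r lam η ρ a M z G := by
  have hd : (1 : ℝ) ≤ d := by exact_mod_cast NeZero.one_le
  have hs1 : 1 ≤ Real.sqrt d := by rw [Real.one_le_sqrt]; exact hd
  have hl := hp.lam_pos
  have hη0 := hp.hη0
  have hη1 : η ≤ 1 := by
    have h1 := hp.hη1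
    have h2 : η * 4 ≤ η * (4 * Real.sqrt d) := mul_le_mul_of_nonneg_left (by linarith) hη0.le
    linarith
  obtain ⟨r', hr', hnb⟩ := hg.nb η hη0
  have hr0 := hg.r0
  have hr1 := hg.r1
  set m := min r' (r / 2) with hm
  have hm0 : 0 < m := lt_min hr' (by linarith)
  have e1 : Tendsto (fun M : ℕ => 5 * Real.sqrt d * lam * ρ * (M : ℝ) ^ (a - 1)) atTop (𝓝 0) := by
    have h1 : Tendsto (fun N : ℕ => (N : ℝ) ^ (-(1 - a))) atTop (𝓝 0) :=
      (tendsto_rpow_neg_atTop (by linarith)).comp tendsto_natCast_atTop_atTop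
    have h2 := h1.const_mul (5 * Real.sqrt d * lam * ρ)
    rw [mul_zero] at h2
    refine h2.congr (fun N => ?_)
    rw [neg_sub]
  filter_upwards [e1.eventually_lt_const hm0, eventually_ge_atTop 1] with M hM1 hM2 z hz
  have hMR : (1 : ℝ) ≤ M := by exact_mod_cast hM2
  have hM0 : (0 : ℝ) < M := by linarith
  set X := ρ * (M : ℝ) ^ a with hX
  have hX0 : 0 < X := by rw [hX]; positivity
  set τ := 5 * Real.sqrt d * lam * X / M with hτ
  have hτ0 : 0 < τ := by rw [hτ]; positivity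
  have hτm : τ < m := by
    have : τ = 5 * Real.sqrt d * lam * ρ * (M : ℝ) ^ (a - 1) := by
      rw [hτ, hX, Real.rpow_sub_one hM0.ne']; ring
    rw [this]; exact hM1
  -- elements of `E` near a vector
  have key : ∀ t : Fin d → ℝ, nm t ≤ τ → ∃ g ∈ E, nm (g - h - t) ≤ η * nm t ∧
      nm (g - h) ≤ r := by
    intro t ht
    have ht0 := nm_nn t
    have h1 : sq t ≤ r' ^ 2 := by
      rw [← nm_sq]
      exact pow_le_pow_left₀ ht0 (ht.trans (hτm.le.trans (min_le_left _ _))) 2
    obtain ⟨g, hgE, hgt⟩ := hnb t h1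
    have h2 : nm (g - h - t) ≤ η * nm t := by
      rw [nm_le (by positivity), mul_pow, nm_sq]
      have : g - (h + t) = g - h - t := by abel
      rwa [this] at hgt
    refine ⟨g, hgE, h2, ?_⟩
    have h3 := nm_add (g - h - t) t
    rw [sub_add_cancel] at h3
    have h4 : m ≤ r / 2 := min_le_right _ _
    nlinarith
  have hkb : ∀ kb : Fin d × Bool, ∃ g ∈ E, nm (g - h - (sg kb.2 * τ) •
      (Pi.single kb.1 (1 : ℝ) : Fin d → ℝ)) ≤ η * τ ∧ nm (g - h) ≤ r := by
    intro kb
    have h1 : nm ((sg kb.2 * τ) • (Pi.single kb.1 (1 : ℝ) : Fin d → ℝ)) = τ := by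
      rw [nm_single, abs_mul, abs_sg, one_mul, abs_of_pos hτ0]
    have h2 := key _ h1.le
    rwa [h1] at h2
  choose qf hqE hq1 hq2 using hkb
  have hzX : nm (disp v M z) ≤ X := by rwa [nm_le hX0.le]
  have htm : nm ((lam / (M : ℝ)) • disp v M z) ≤ τ := by
    rw [nm_smul, abs_of_pos (by positivity), hτ]
    calc lam / M * nm (disp v M z) ≤ lam / M * X :=
          mul_le_mul_of_nonneg_left hzX (by positivity)
      _ = 1 * (lam * X / M) := by ring
      _ ≤ (5 * Real.sqrt d) * (lam * X / M) :=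
          mul_le_mul_of_nonneg_right (by linarith) (by positivity)
      _ = _ := by ring
  obtain ⟨g0, hg0E, hg01, hg02⟩ := key _ htm
  have hnz : nm (h - h) ≤ r := by
    rw [sub_self]
    have : nm (0 : Fin d → ℝ) = 0 := by unfold nm sq; simp
    rw [this]; exact hr0.le
  by_cases hc : nm (disp v M z) ≤ X / 2
  · refine ⟨fun j => match j with
      | none => h
      | some none => h
      | some (some kb) => qf kb, ?_, ?_, ?_, ?_, ?_, ?_, ?_⟩
    · intro j
      match j with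
      | none => exact hg.mem
      | some none => exact hg.mem
      | some (some kb) => exact hqE kb
    · intro j k
      match j with
      | none => simp
      | some none => simp
      | some (some kb) =>
        have := abs_le_nm (qf kb - h) k
        simp only [Pi.sub_apply] at this
        exact this.trans ((hq2 kb).trans hr1)
    · rfl
    · rw [← nm_le hr0.le]; exact hnz
    · intro k b
      rw [← nm_le hr0.le]
      exact hq2 (k, b)
    · intro k b
      exact hq1 (k, b)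
    · exact Or.inl ⟨hc, rfl⟩
  · refine ⟨fun j => match j with
      | none => h
      | some none => g0
      | some (some kb) => qf kb, ?_, ?_, ?_, ?_, ?_, ?_, ?_⟩
    · intro j
      match j with
      | none => exact hg.mem
      | some none => exact hg0E
      | some (some kb) => exact hqE kb
    · intro j k
      match j with
      | none => simp
      | some none =>
        have := abs_le_nm (g0 - h) k
        simp only [Pi.sub_apply] at this
        exact this.trans (hg02.trans hr1)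
      | some (some kb) =>
        have := abs_le_nm (qf kb - h) k
        simp only [Pi.sub_apply] at this
        exact this.trans ((hq2 kb).trans hr1)
    · rfl
    · rw [← nm_le hr0.le]; exact hg02
    · intro k b
      rw [← nm_le hr0.le]
      exact hq2 (k, b)
    · intro k b
      exact hq1 (k, b)
    · exact Or.inr ⟨not_le.1 hc, hzX, hg01⟩

lemma sum_abs_le (t : Fin d → ℝ) : ∑ k, |t k| ≤ Real.sqrt d * nm t := by
  have h1 : (∑ k, |t k|) ^ 2 ≤ (Real.sqrt d * nm t) ^ 2 := by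
    rw [mul_pow, Real.sq_sqrt (Nat.cast_nonneg d), nm_sq]
    have h2 := sq_sum_le_card_mul_sum_sq (s := (Finset.univ : Finset (Fin d)))
      (f := fun k => |t k|)
    simp only [sq_abs, Finset.card_univ, Fintype.card_fin] at h2
    exact h2
  exact abs_le_of_sq_le_sq' h1 (mul_nonneg (Real.sqrt_nonneg _) (nm_nn _)) |>.2

/-- lattice points of the right parity near the line are end points of walks -/
lemma reach_of {v : Fin d → ℝ} (hv : ∑ k, |v k| < 1) {ρ a : ℝ} (hρ : 0 < ρ) (ha : a < 1) :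
    ∀ᶠ M : ℕ in atTop, ∀ z : Fin d → ℤ, ((∑ k, z k) - M) % 2 = 0 →
      sq (disp v M z) ≤ (ρ * (M : ℝ) ^ a) ^ 2 → reach M z := by
  have e1 : Tendsto (fun M : ℕ => Real.sqrt d * ρ * (M : ℝ) ^ (a - 1)) atTop (𝓝 0) := by
    have h1 : Tendsto (fun N : ℕ => (N : ℝ) ^ (-(1 - a))) atTop (𝓝 0) :=
      (tendsto_rpow_neg_atTop (by linarith)).comp tendsto_natCast_atTop_atTop
    have h2 := h1.const_mul (Real.sqrt d * ρ)
    rw [mul_zero] at h2
    refine h2.congr (fun N => ?_)
    rw [neg_sub]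
  filter_upwards [e1.eventually_lt_const (show 0 < 1 - ∑ k, |v k| by linarith),
    eventually_ge_atTop 1] with M hM1 hM2 z hz1 hz2
  have hMR : (1 : ℝ) ≤ M := by exact_mod_cast hM2
  have hM0 : (0 : ℝ) < M := by linarith
  refine ⟨?_, hz1⟩
  have hX0 : 0 < ρ * (M : ℝ) ^ a := by positivity
  rw [← nm_le hX0.le] at hz2
  have h1 : ∑ k, |(z k : ℝ)| ≤ ∑ k, |disp v M z k| + M * ∑ k, |v k| := by
    rw [Finset.mul_sum, ← Finset.sum_add_distrib]
    apply Finset.sum_le_sum
    intro k _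
    have : (z k : ℝ) = disp v M z k + M * v k := by unfold disp; ring
    rw [this]
    refine (abs_add_le _ _).trans ?_
    rw [abs_mul, Nat.abs_cast]
  have h2 := sum_abs_le (disp v M z)
  have h3 : Real.sqrt d * nm (disp v M z) ≤ Real.sqrt d * (ρ * (M : ℝ) ^ a) :=
    mul_le_mul_of_nonneg_left hz2 (Real.sqrt_nonneg _)
  have h4 : Real.sqrt d * (ρ * (M : ℝ) ^ a) = (Real.sqrt d * ρ * (M : ℝ) ^ (a - 1)) * M := by
    rw [Real.rpow_sub_one hM0.ne']; field_simp
  have h5 : (Real.sqrt d * ρ * (M : ℝ) ^ (a - 1)) * M ≤ (1 - ∑ k, |v k|) * M :=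
    mul_le_mul_of_nonneg_right hM1.le hM0.le
  have h6 : ∑ k, |(z k : ℝ)| ≤ M := by linarith
  have h7 : ((∑ k, |z k| : ℤ) : ℝ) ≤ ((M : ℤ) : ℝ) := by push_cast; exact h6
  exact_mod_cast h7

/-- the error terms are small -/
lemma err_small {A c e : ℝ} (hA : 0 ≤ A) (hc : 0 < c) (hce : c < e) {ε : ℝ} (hε : 0 < ε) :
    ∀ᶠ M : ℕ in atTop, 2 * ((1 + A) * (M : ℝ) ^ c) + d * Real.log (2 * M + 1) ≤
      ε * (M : ℝ) ^ e := by
  set K := 2 * (1 + A) + d * (3 ^ c / c) with hK
  have hK0 : 0 < K := by rw [hK]; positivity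
  have e1 : Tendsto (fun M : ℕ => (M : ℝ) ^ (e - c)) atTop atTop :=
    (tendsto_rpow_atTop (by linarith)).comp tendsto_natCast_atTop_atTop
  filter_upwards [e1.eventually_ge_atTop (K / ε), eventually_ge_atTop 1] with M hM1 hM2
  have hMR : (1 : ℝ) ≤ M := by exact_mod_cast hM2
  have hM0 : (0 : ℝ) < M := by linarith
  have h1 : Real.log (2 * M + 1) ≤ 3 ^ c / c * (M : ℝ) ^ c := by
    have h2 := Real.log_le_rpow_div (x := 2 * (M : ℝ) + 1) (ε := c) (by positivity) hc
    refine h2.trans ?_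
    have h3 : (2 * (M : ℝ) + 1) ^ c ≤ (3 * M) ^ c :=
      Real.rpow_le_rpow (by positivity) (by linarith) hc.le
    rw [Real.mul_rpow (by norm_num) hM0.le] at h3
    calc (2 * (M : ℝ) + 1) ^ c / c ≤ 3 ^ c * (M : ℝ) ^ c / c := by gcongr
      _ = _ := by ring
  have h2 : 2 * ((1 + A) * (M : ℝ) ^ c) + d * Real.log (2 * M + 1) ≤ K * (M : ℝ) ^ c := by
    have := mul_le_mul_of_nonneg_left h1 (Nat.cast_nonneg (α := ℝ) d)
    rw [hK]
    linarith
  refine h2.trans ?_
  have e2 : (M : ℝ) ^ e = (M : ℝ) ^ (e - c) * (M : ℝ) ^ c := by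
    rw [← Real.rpow_add hM0]; congr 1; ring
  rw [e2]
  rw [div_le_iff₀ hε] at hM1
  have : 0 < (M : ℝ) ^ c := by positivity
  nlinarith

end Pool.Agent.K1H53.KD
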