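import Pool.Agent.K1H53.KD.Core

/-!
One step of the steering for the polymer.
-/

open Set Filter TH967.DP
open scoped Topology

set_option linter.unusedSectionVars false

namespace Pool.Agent.K1H53.KD

open Pool.Agent.K1H38.DP

variable {d : ℕ}

lemma dot_disp (u v : Fin d → ℝ) (n : ℕ) (x : Fin d → ℤ) :
    dot u x = ip u (disp v n x) + n * ip v u := by
  unfold dot ip disp
  rw [Finset.mul_sum, ← Finset.sum_add_distrib]
  apply Finset.sum_congr rfl
  intro k _
  ring

lemma dot_sub_left (h g : Fin d → ℝ) (x : Fin d → ℤ) : dot (h - g) x = dot h x - dot g x := by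
  unfold dot
  rw [← Finset.sum_sub_distrib]
  apply Finset.sum_congr rfl
  intro k _
  simp only [Pi.sub_apply]; ring

lemma onestep [NeZero d] (hZ : ZApi d) {β : ℝ} {η : ℕ → (Fin d → ℤ) → ℝ} {n : ℕ}
    {p : (Fin d → ℝ) → ℝ} {h v g : Fin d → ℝ} {q : Fin d → Bool → Fin d → ℝ} {b : ℝ}
    (Hh : |Real.log (Zd β h η n) - n * p h| ≤ b) (Hg : |Real.log (Zd β g η n) - n * p g| ≤ b)
    (Hq : ∀ k b', |Real.log (Zd β (q k b') η n) - n * p (q k b')| ≤ b) :
    ∃ x : Fin d → ℤ, reach n x ∧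
      (∀ k b', ip (q k b' - g) (disp v n x) ≤ n * ((p (q k b') - p h - ip v (q k b' - h)) -
        (p g - p h - ip v (g - h))) + (2 * b + d * Real.log (2 * n + 1))) ∧
      n * (p g - p h - ip v (g - h)) ≤ ip (g - h) (disp v n x) +
        (2 * b + d * Real.log (2 * n + 1)) ∧
      n * p h - dot h x + n * (p g - p h - ip v (g - h)) - ip (g - h) (disp v n x) -
        (2 * b + d * Real.log (2 * n + 1)) ≤ Real.log (Zp β η n x) := by
  obtain ⟨x, hx, hmax⟩ := hZ.max β g η n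
  have hpos := hZ.pos β η n x hx
  have hb0 : 0 ≤ b := (abs_nonneg _).trans Hh
  have h2n : (0 : ℝ) < 2 * n + 1 := by positivity
  have h1 : Real.log (Zd β g η n) ≤ d * Real.log (2 * n + 1) + (Real.log (Zp β η n x) + dot g x) := by
    have := Real.log_le_log (Zd_pos β g η n) hmax
    rw [Real.log_mul (by positivity) (by positivity), Real.log_mul hpos.ne' (Real.exp_pos _).ne',
      Real.log_exp, Real.log_pow] at this
    exact this
  have h2 : ∀ g' : Fin d → ℝ, Real.log (Zp β η n x) + dot g' x ≤ Real.log (Zd β g' η n) := by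
    intro g'
    have := Real.log_le_log (by positivity) (hZ.le_Zd β g' η n x)
    rwa [Real.log_mul hpos.ne' (Real.exp_pos _).ne', Real.log_exp] at this
  have a1 := abs_le.1 Hg
  have a2 := abs_le.1 Hh
  refine ⟨x, hx, fun k b' => ?_, ?_, ?_⟩
  · have a3 := abs_le.1 (Hq k b')
    have h3 := h2 (q k b')
    have h4 : dot (q k b' - g) x = dot (q k b') x - dot g x := dot_sub_left _ _ _
    rw [dot_disp (q k b' - g) v n x] at h4
    have h5 : ip v (q k b' - g) = ip v (q k b' - h) - ip v (g - h) := by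
      rw [ip_sub_right, ip_sub_right, ip_sub_right]; ring
    rw [h5] at h4
    have e1 : (n : ℝ) * ((p (q k b') - p h - ip v (q k b' - h)) - (p g - p h - ip v (g - h))) =
        n * p (q k b') - n * p g - n * (ip v (q k b' - h) - ip v (g - h)) := by ring
    rw [e1]
    linarith
  · have h3 := h2 h
    have h4 : dot (g - h) x = dot g x - dot h x := dot_sub_left _ _ _
    rw [dot_disp (g - h) v n x] at h4
    have e1 : (n : ℝ) * (p g - p h - ip v (g - h)) = n * p g - n * p h - n * ip v (g - h) := by ring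
    rw [e1]
    linarith
  · have h4 : dot (g - h) x = dot g x - dot h x := dot_sub_left _ _ _
    rw [dot_disp (g - h) v n x] at h4
    have e1 : (n : ℝ) * (p g - p h - ip v (g - h)) = n * p g - n * p h - n * ip v (g - h) := by ring
    rw [e1]
    linarith

/-- one step of the steering -/
theorem steer [NeZero d] (hZ : ZApi d) {c₂ C₁ lam C₃ η θ : ℝ} (hp : Par d c₂ C₁ lam C₃ η θ)
    {β : ℝ} {env : ℕ → (Fin d → ℤ) → ℝ} {n : ℕ} {p : (Fin d → ℝ) → ℝ} {h v : Fin d → ℝ} {r : ℝ}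
    (hup : ∀ t : Fin d → ℝ, sq t ≤ r ^ 2 → p (h + t) ≤ p h + ip v t + C₁ * sq t)
    (hlow : ∀ t : Fin d → ℝ, sq t ≤ r ^ 2 → p h + ip v t + c₂ * sq t ≤ p (h + t))
    {M X : ℝ} (hM : 0 < M) (hn1 : θ * M ≤ 2 * n) (hn2 : n ≤ θ * M) (hX : 0 < X)
    {e g : Fin d → ℝ} {q : Fin d → Bool → Fin d → ℝ} {τ : ℝ}
    (hτ : τ = 5 * Real.sqrt d * lam * X / M)
    (hgr : sq (g - h) ≤ r ^ 2) (hqr : ∀ k b, sq (q k b - h) ≤ r ^ 2)
    (hq : ∀ k b, nm (q k b - h - (sg b * τ) • (Pi.single k (1 : ℝ) : Fin d → ℝ)) ≤ η * τ)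
    (hcase : (nm e ≤ X / 2 ∧ g = h) ∨ (X / 2 < nm e ∧ nm e ≤ X ∧
      nm (g - h - (lam / M) • e) ≤ η * nm ((lam / M) • e)))
    {b : ℝ} (hb : (2 * b + d * Real.log (2 * n + 1)) * (4 * M) ≤ lam * θ * X ^ 2)
    (Hh : |Real.log (Zd β h env n) - n * p h| ≤ b)
    (Hg : |Real.log (Zd β g env n) - n * p g| ≤ b)
    (Hq : ∀ k b', |Real.log (Zd β (q k b') env n) - n * p (q k b')| ≤ b) :
    ∃ x : Fin d → ℤ, reach n x ∧ sq (e - disp v n x) ≤ (1 - 3 * θ) * X ^ 2 ∧
      n * p h - dot h x - (5 / 2 * lam * C₃ * X ^ 2 / M + (2 * b + d * Real.log (2 * n + 1))) ≤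
        Real.log (Zp β env n x) := by
  obtain ⟨x, hx, h1, h2, h3⟩ := onestep (v := v) hZ Hh Hg Hq
  have hb0 : 0 ≤ b := (abs_nonneg _).trans Hh
  have hlog : 0 ≤ Real.log (2 * n + 1) := Real.log_nonneg (by
    have : (0 : ℝ) ≤ n := Nat.cast_nonneg n
    linarith)
  have hb2 : 0 ≤ 2 * b + d * Real.log (2 * n + 1) := by positivity
  set b₂ := 2 * b + d * Real.log (2 * n + 1) with hb₂
  have gl := hlow (g - h) hgr
  rw [add_sub_cancel] at gl
  have hsq := sq_nn (g - h)
  have hc2 := hp.hc2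
  have hn0 : (0 : ℝ) ≤ n := Nat.cast_nonneg n
  have hΨ : 0 ≤ p g - p h - ip v (g - h) := by
    have : 0 ≤ c₂ * sq (g - h) := by positivity
    linarith
  obtain ⟨k1, k2⟩ := contract hp hM hn1 hn2 hX hb (e := e) (w := disp v n x) (u := g - h)
    (q := fun k b => q k b - h) hτ hq (by
      rcases hcase with ⟨a1, a2⟩ | ⟨a1, a2, a3⟩
      · left
        exact ⟨a1, by rw [a2, sub_self]⟩
      · right
        exact ⟨a1, a2, a3⟩) (fun k b' => by
      have e1 : q k b' - h - (g - h) = q k b' - g := by abel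
      rw [e1]
      refine (h1 k b').trans ?_
      have qu := hup (q k b' - h) (hqr k b')
      rw [add_sub_cancel] at qu
      have : (p (q k b') - p h - ip v (q k b' - h)) - (p g - p h - ip v (g - h)) ≤
          C₁ * sq (q k b' - h) := by linarith
      have := mul_le_mul_of_nonneg_left this hn0
      linarith) (by
      refine le_trans ?_ h2
      apply mul_le_mul_of_nonneg_left _ hn0
      linarith)
  refine ⟨x, hx, k1, ?_⟩
  refine le_trans ?_ h3
  have h4 := (abs_le.1 (ip_cs (g - h) (disp v n x))).2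
  have h5 : 0 ≤ (n : ℝ) * (p g - p h - ip v (g - h)) := mul_nonneg hn0 hΨ
  linarith

end Pool.Agent.K1H53.KD
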