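import Pool.Agent.K1H53.KD.Steer
import Pool.Agent.K1H53.KZ.SE

/-!
Tails of the point-to-point free energies (`S_pp`) from the probabilistic inputs.
-/

open MeasureTheory ProbabilityTheory Set Filter TH967.DP
open scoped Topology

set_option linter.unusedSectionVars false

namespace Pool.Agent.K1H53.KD

open Pool.Agent.K1H38.DP

variable {d : ℕ} {Ω : Type*} [MeasurableSpace Ω] {P : Measure Ω} [IsProbabilityMeasure P]
  {ω : ℕ → (Fin d → ℤ) → Ω → ℝ}

lemma p_lip [NeZero d] (he : IsEnv P ω) (hexp : HasExp P ω) {β : ℝ} {p : (Fin d → ℝ) → ℝ}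
    (hp : IsP P ω β p) {h g : Fin d → ℝ} {R : ℝ} (hr : ∀ k, |h k - g k| ≤ R) :
    |p h - p g| ≤ R := by
  have t1 := ((hp h).sub (hp g)).abs
  refine le_of_tendsto t1 (Eventually.of_forall fun k => ?_)
  have := Lm_lip he hexp β (h := h) (g := g) (r := R) hr (2 ^ k)
  rw [← sub_div, abs_div, abs_of_pos (by positivity : (0 : ℝ) < 2 ^ k),
    div_le_iff₀ (by positivity)]
  push_cast at this
  linarith

/-- the velocity is in the interior of the set of possible velocities -/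
lemma vsum [NeZero d] (he : IsEnv P ω) (hexp : HasExp P ω) {β : ℝ} {p : (Fin d → ℝ) → ℝ}
    (hp : IsP P ω β p) {h v : Fin d → ℝ} {c₂ r : ℝ} (hc2 : 0 < c₂) (hr : 0 < r)
    (hlow : ∀ t : Fin d → ℝ, sq t ≤ r ^ 2 → p h + ip v t + c₂ * sq t ≤ p (h + t)) :
    ∑ k, |v k| < 1 := by
  have hd : (1 : ℝ) ≤ d := by exact_mod_cast NeZero.one_le
  set τ := r / d with hτ
  have hτ0 : 0 < τ := by rw [hτ]; positivity
  set t : Fin d → ℝ := fun k => if 0 ≤ v k then τ else -τ with ht
  have h1 : ∀ k, t k ^ 2 = τ ^ 2 := by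
    intro k
    rw [ht]
    simp only
    split_ifs <;> ring
  have h2 : sq t = d * τ ^ 2 := by
    unfold sq
    simp_rw [h1]
    rw [Finset.sum_const, Finset.card_univ, Fintype.card_fin, nsmul_eq_mul]
  have h3 : sq t ≤ r ^ 2 := by
    rw [h2, hτ, div_pow]
    rw [show (d : ℝ) * (r ^ 2 / d ^ 2) = r ^ 2 / d by field_simp]
    exact div_le_self (sq_nonneg r) hd
  have h4 : ip v t = τ * ∑ k, |v k| := by
    unfold ip
    rw [Finset.mul_sum]
    apply Finset.sum_congr rfl
    intro k _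
    rw [ht]
    simp only
    split_ifs with hk
    · rw [abs_of_nonneg hk]; ring
    · rw [abs_of_neg (not_le.1 hk)]; ring
  have h5 := hlow t h3
  have h6 := p_lip he hexp hp (h := h + t) (g := h) (R := τ) (by
    intro k
    rw [Pi.add_apply, add_sub_cancel_left]
    rw [ht]
    simp only
    split_ifs
    · rw [abs_of_pos hτ0]
    · rw [abs_neg, abs_of_pos hτ0])
  have h7 := (abs_le.1 h6).2
  rw [h4, h2] at h5
  have h8 : 0 < c₂ * (d * τ ^ 2) := by positivity
  have h9 : τ * ∑ k, |v k| < τ * 1 := by linarith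
  exact lt_of_mul_lt_mul_left h9 hτ0.le

lemma reach_zero_coord (k : Fin d) : |(0 : Fin d → ℤ) k| ≤ ((0 : ℕ) : ℤ) := by simp

/-- comparison of stretched exponentials -/
lemma se_le {N : ℕ} (hN : 1 ≤ N) {s s' : ℝ} (h : s' ≤ s) {C D : ℝ} (hC : 0 ≤ C) (hD : C ≤ D) :
    C * Real.exp (-(N : ℝ) ^ s) ≤ D * Real.exp (-(N : ℝ) ^ s') := by
  have hNR : (1 : ℝ) ≤ N := by exact_mod_cast hN
  have h1 : (N : ℝ) ^ s' ≤ (N : ℝ) ^ s := Real.rpow_le_rpow_of_exponent_le hNR h
  apply mul_le_mul hD (Real.exp_le_exp.2 (by linarith)) (Real.exp_pos _).le (hC.trans hD)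

theorem t_pp [NeZero d] (he : IsEnv P ω) (hexp : HasExp P ω) {β : ℝ} (hZ : ZApi d)
    (hU : S_union P ω β) (hX : S_max P ω) {p : (Fin d → ℝ) → ℝ} (hm : S_mean P ω β p)
    (hp : IsP P ω β p) : S_pp P ω β p := by
  intro c s C hc hc1 hs h v C₁ c₂ r hg hc2 hlow a ρ hca ha hρ
  have hv := vsum he hexp hp hc2 hg.r0 hlow
  obtain ⟨A, hA, hL⟩ := hm c s C hc hc1 hs h hg.mem
  obtain ⟨G, hGE, M₀, K, hK, hmulti⟩ := multi hZ hg hc2 hlow hv (L := Lm P ω β) hA hL hc hca ha
    hρ β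
  set e := 2 * a - 1 with he'
  have he0 : 0 < e := by rw [he']; linarith
  have hce : c ≤ e := by rw [he']; linarith
  obtain ⟨s₁, C₁', hs1, hC1, hU1⟩ := hU c s C (e / 2) hc hs (by linarith) G hGE
  obtain ⟨s₂, C₂', hs2, hC2, hX1⟩ := hX (e / 2) (by linarith)
  set H := |p h| + ∑ k, |h k| with hH
  have hH0 : 0 ≤ H := by
    have : 0 ≤ ∑ k, |h k| := Finset.sum_nonneg fun _ _ => abs_nonneg _
    positivity
  set K' := K + 2 * (|β| + H) + (1 + A) with hK'
  have hK'0 : 0 < K' := by rw [hK']; positivity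
  set s' := min s (min s₁ s₂) with hs'
  have hs'0 : 0 < s' := lt_min hs (lt_min hs1 hs2)
  have hev : ∀ᶠ N : ℕ in atTop, P.real (PPbad P ω β h v N (ρ * (N : ℝ) ^ a) (K' * (N : ℝ) ^ e)
      (N * p h)) ≤ (|C| + C₁' + C₂') * Real.exp (-(N : ℝ) ^ s') := by
    have e1 : Tendsto (fun N : ℕ => (N : ℝ) ^ (e / 2)) atTop atTop :=
      (tendsto_rpow_atTop (by linarith)).comp tendsto_natCast_atTop_atTop
    filter_upwards [e1.eventually_ge_atTop (M₀ : ℝ), eventually_ge_atTop 1] with N hN1 hN2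
    have hNR : (1 : ℝ) ≤ N := by exact_mod_cast hN2
    have hN0 : (0 : ℝ) < N := by linarith
    set y := (N : ℝ) ^ (e / 2) with hy
    have hy1 : 1 ≤ y := Real.one_le_rpow hNR (by linarith)
    have hyy : y * y = (N : ℝ) ^ e := by
      rw [hy, ← Real.rpow_add hN0]; congr 1; ring
    have hsub : PPbad P ω β h v N (ρ * (N : ℝ) ^ a) (K' * (N : ℝ) ^ e) (N * p h) ⊆
        dev P ω β h N ((N : ℝ) ^ c) ∪ (SBad P ω β c (e / 2) G N ∪
          {x | ∃ i ≤ N, ∃ y' : Fin d → ℤ, (∀ k, |y' k| ≤ (N : ℤ)) ∧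
            (N : ℝ) ^ (e / 2) < |ω i y' x|}) := by
      intro x hx
      by_contra hcon
      simp only [mem_union, not_or] at hcon
      obtain ⟨n1, n2, n3⟩ := hcon
      obtain ⟨z, hz, hzd, hlt⟩ := hx
      -- upper bound
      have hce' : (N : ℝ) ^ c ≤ (N : ℝ) ^ e := Real.rpow_le_rpow_of_exponent_le hNR hce
      have hNe : 0 < (N : ℝ) ^ e := by positivity
      have hpos := hZ.pos β (fld ω x) N z hz
      have up : Real.log (Zp β (fld ω x) N z) + dot h z ≤ N * p h + (1 + A) * (N : ℝ) ^ e := by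
        have h1 := Real.log_le_log (by positivity) (hZ.le_Zd β h (fld ω x) N z)
        rw [Real.log_mul hpos.ne' (Real.exp_pos _).ne', Real.log_exp] at h1
        have h2 : |Real.log (Zd β h (fld ω x) N) - Lm P ω β h N| ≤ (N : ℝ) ^ c := by
          unfold dev at n1
          simpa using n1
        have h3 := (abs_le.1 h2).2
        have h4 := (abs_le.1 (hL h hg.mem (fun k => by simp) N)).2
        have h5 : (1 + A) * (N : ℝ) ^ c ≤ (1 + A) * (N : ℝ) ^ e :=
          mul_le_mul_of_nonneg_left hce' (by linarith)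
        linarith
      -- lower bound
      set M₁ := ⌈y⌉₊ with hM1
      have hM10 : M₀ ≤ M₁ := by
        have : (M₀ : ℝ) ≤ M₁ := hN1.trans (Nat.le_ceil _)
        exact_mod_cast this
      have hM1y : (M₁ : ℝ) ≤ 2 * y := by
        have := Nat.ceil_lt_add_one (show 0 ≤ y by linarith)
        linarith
      have lo := hmulti (fld ω x) N M₁ y hM10 (by linarith) (fun i hi x' hx' => by
        by_contra hc'
        push Not at hc'
        exact n3 ⟨i, hi, x', hx', hc'⟩) (fun M hM hMN z' hz' j n hn T hT y' hy' => by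
        by_contra hc'
        push Not at hc'
        refine n2 ⟨M, ?_, hMN, z', hz', j, n, hn, T, hT, y', hy', hc'⟩
        have : y ≤ (M₁ : ℝ) := Nat.le_ceil _
        have h2 : (M₁ : ℝ) ≤ M := by exact_mod_cast hM
        linarith) N 0 0 z (by omega) (fun k => by simp) hz hzd
      have hsz : shift 0 0 (fld ω x) = fld ω x := by unfold shift; simp
      rw [hsz] at lo
      have lo2 : (M₁ : ℝ) * (|β| * y + |p h| + ∑ k, |h k|) ≤ 2 * (|β| + H) * (N : ℝ) ^ e := by
        have h1 : |β| * y + |p h| + ∑ k, |h k| ≤ (|β| + H) * y := by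
          rw [hH]
          have : |p h| + ∑ k, |h k| ≤ (|p h| + ∑ k, |h k|) * y := by
            rw [← hH]; nlinarith
          linarith
        calc (M₁ : ℝ) * (|β| * y + |p h| + ∑ k, |h k|) ≤ (2 * y) * ((|β| + H) * y) := by
              apply mul_le_mul hM1y h1 _ (by positivity)
              have : 0 ≤ ∑ k, |h k| := Finset.sum_nonneg fun _ _ => abs_nonneg _
              positivity
          _ = 2 * (|β| + H) * (y * y) := by ring
          _ = _ := by rw [hyy]
      have hb0 : 0 ≤ |β| + H := by positivity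
      have habs : |Real.log (Zp β (fld ω x) N z) - (N * p h - dot h z)| ≤ K' * (N : ℝ) ^ e := by
        rw [abs_le]
        have e1 : K' * (N : ℝ) ^ e = K * (N : ℝ) ^ e + 2 * (|β| + H) * (N : ℝ) ^ e +
          (1 + A) * (N : ℝ) ^ e := by rw [hK']; ring
        have q1 : 0 ≤ K * (N : ℝ) ^ e := by positivity
        have q2 : 0 ≤ 2 * (|β| + H) * (N : ℝ) ^ e := by positivity
        have q3 : 0 ≤ (1 + A) * (N : ℝ) ^ e := by positivity
        rw [e1]
        constructor <;> linarith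
      exact absurd hlt (not_lt.2 habs)
    have hP1 : P.real (dev P ω β h N ((N : ℝ) ^ c)) ≤ |C| * Real.exp (-(N : ℝ) ^ s') :=
      (hg.mem N hN2).trans ((mul_le_mul_of_nonneg_right (le_abs_self C) (Real.exp_pos _).le).trans
        (se_le hN2 (min_le_left _ _) (abs_nonneg _) le_rfl))
    have hP2 : P.real (SBad P ω β c (e / 2) G N) ≤ C₁' * Real.exp (-(N : ℝ) ^ s') :=
      (hU1 N hN2).trans (se_le hN2 ((min_le_right _ _).trans (min_le_left _ _)) hC1 le_rfl)
    have hP3 := (hX1 N hN2).trans (se_le hN2 ((min_le_right s (min s₁ s₂)).trans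
      (min_le_right _ _)) hC2 le_rfl)
    calc P.real (PPbad P ω β h v N (ρ * (N : ℝ) ^ a) (K' * (N : ℝ) ^ e) (N * p h)) ≤
        P.real (dev P ω β h N ((N : ℝ) ^ c) ∪ (SBad P ω β c (e / 2) G N ∪
          {x | ∃ i ≤ N, ∃ y' : Fin d → ℤ, (∀ k, |y' k| ≤ (N : ℤ)) ∧
            (N : ℝ) ^ (e / 2) < |ω i y' x|})) := measureReal_mono hsub (measure_ne_top _ _)
      _ ≤ P.real (dev P ω β h N ((N : ℝ) ^ c)) + (P.real (SBad P ω β c (e / 2) G N) +
          P.real {x | ∃ i ≤ N, ∃ y' : Fin d → ℤ, (∀ k, |y' k| ≤ (N : ℤ)) ∧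
            (N : ℝ) ^ (e / 2) < |ω i y' x|}) :=
          (measureReal_union_le _ _).trans (by gcongr; exact measureReal_union_le _ _)
      _ ≤ |C| * Real.exp (-(N : ℝ) ^ s') + (C₁' * Real.exp (-(N : ℝ) ^ s') +
          C₂' * Real.exp (-(N : ℝ) ^ s')) := by gcongr
      _ = _ := by ring
  obtain ⟨C', hC', hfin⟩ := KZ.se_of_ev hs'0 (B := 1) (fun N => measureReal_le_one) hev
  exact ⟨K', s', C', hK'0, hs'0, hC', hfin⟩

end Pool.Agent.K1H53.KD
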