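import Pool.Agent.K1H38.DP.Main

/-!
The relation between the exponents of the free polymer at almost every drift in every dimension:
definitions and statements of the steps.
-/

open MeasureTheory ProbabilityTheory Set Filter TH967.DP
open scoped Topology

set_option linter.unusedSectionVars false

namespace Pool.Agent.K1H53.KD

open Pool.Agent.K1H38.DP

variable {d : ℕ} {Ω : Type*} [MeasurableSpace Ω]

/-- The exponents `c > 0` with: for some `s > 0` and `C`,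
`ℙ(|log Z_n^h - 𝔼 log Z_n^h| > n^c) ≤ C exp(-n^s)` for all `n ≥ 1`. -/
def TailSet (P : Measure Ω) (ω : ℕ → (Fin d → ℤ) → Ω → ℝ) (β : ℝ) (h : Fin d → ℝ) : Set ℝ :=
  {c : ℝ | 0 < c ∧ ∃ s C : ℝ, 0 < s ∧ ∀ n : ℕ, 1 ≤ n →
    P.real {x | (n : ℝ) ^ c < |Real.log (Zn β h (fun i y => ω i y x) n) -
      ∫ x', Real.log (Zn β h (fun i y => ω i y x') n) ∂P|} ≤ C * Real.exp (-(n : ℝ) ^ s)}

/-- The fluctuation exponent `χ(h)` of the polymer with drift `h`. -/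
noncomputable def chi (P : Measure Ω) (ω : ℕ → (Fin d → ℤ) → Ω → ℝ) (β : ℝ) (h : Fin d → ℝ) : ℝ :=
  sInf (TailSet P ω β h)

/-- The exponents `a > 0` with: for some `s > 0` and `C`,
`𝔼 P_n^h(max_{i≤n} ‖S_i - i v‖ > n^a) ≤ C exp(-n^s)` for all `n ≥ 1`. -/
def ConfSet (P : Measure Ω) (ω : ℕ → (Fin d → ℤ) → Ω → ℝ) (β : ℝ) (h v : Fin d → ℝ) : Set ℝ :=
  {a : ℝ | 0 < a ∧ ∃ s C : ℝ, 0 < s ∧ ∀ n : ℕ, 1 ≤ n →
    ∫ x, (1 - frProb β h (fun i y => ω i y x) (tube n v ((n : ℝ) ^ a))) ∂P ≤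
      C * Real.exp (-(n : ℝ) ^ s)}

/-- The wandering exponent `ν(h, v)` of the polymer with drift `h` around the line of velocity
`v`. -/
noncomputable def nu (P : Measure Ω) (ω : ℕ → (Fin d → ℤ) → Ω → ℝ) (β : ℝ) (h v : Fin d → ℝ) : ℝ :=
  sInf (ConfSet P ω β h v)

/-- drifts with given tail constants (`dev`, `Lm`, `Zd` are in Pool/Agent/K1H38/DP) -/
def TE (P : Measure Ω) (ω : ℕ → (Fin d → ℤ) → Ω → ℝ) (β c s C : ℝ) : Set (Fin d → ℝ) :=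
  {h | ∀ n : ℕ, 1 ≤ n → P.real (dev P ω β h n ((n : ℝ) ^ c)) ≤ C * Real.exp (-(n : ℝ) ^ s)}

/-- sum of squares -/
def sq (t : Fin d → ℝ) : ℝ := ∑ k, t k ^ 2

/-- scalar product -/
def ip (v t : Fin d → ℝ) : ℝ := ∑ k, v k * t k

/-- `h` is a good point of `E`: paraboloid above `p`, elements of `E` near every point close to
`h` -/
structure Good (E : Set (Fin d → ℝ)) (p : (Fin d → ℝ) → ℝ) (h v : Fin d → ℝ) (C₁ r : ℝ) :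
    Prop where
  r0 : 0 < r
  r1 : r ≤ 1
  C0 : 0 < C₁
  mem : h ∈ E
  up : ∀ t : Fin d → ℝ, sq t ≤ r ^ 2 → p (h + t) ≤ p h + ip v t + C₁ * sq t
  sub : ∀ t : Fin d → ℝ, p h + ip v t ≤ p (h + t)
  nb : ∀ η : ℝ, 0 < η → ∃ r' : ℝ, 0 < r' ∧ ∀ t : Fin d → ℝ, sq t ≤ r' ^ 2 →
    ∃ g ∈ E, sq (g - (h + t)) ≤ η ^ 2 * sq t

/-- (1) density -/
def S_dens (d : ℕ) : Prop := ∀ E : Set (Fin d → ℝ), ∀ᵐ h : Fin d → ℝ, h ∈ E →
  ∀ η : ℝ, 0 < η → ∃ r' : ℝ, 0 < r' ∧ ∀ t : Fin d → ℝ, sq t ≤ r' ^ 2 →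
    ∃ g ∈ E, sq (g - (h + t)) ≤ η ^ 2 * sq t

/-- (2) paraboloids above convex functions at almost every point, with subgradient -/
def S_slope (d : ℕ) : Prop := ∀ p : (Fin d → ℝ) → ℝ, ConvexOn ℝ univ p → Continuous p →
  ∀ᵐ h : Fin d → ℝ, ∃ (v : Fin d → ℝ) (C₁ r : ℝ), 0 < C₁ ∧ 0 < r ∧ r ≤ 1 ∧
    (∀ t : Fin d → ℝ, sq t ≤ r ^ 2 → p (h + t) ≤ p h + ip v t + C₁ * sq t) ∧
    ∀ t : Fin d → ℝ, p h + ip v t ≤ p (h + t)

/-- the limiting free energy -/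
def IsP (P : Measure Ω) (ω : ℕ → (Fin d → ℤ) → Ω → ℝ) (β : ℝ) (p : (Fin d → ℝ) → ℝ) : Prop :=
  ∀ h, Tendsto (fun k : ℕ => Lm P ω β h (2 ^ k) / 2 ^ k) atTop (𝓝 (p h))

/-- (3) the upper half: confinement from tails (Pool/Agent/K1H38/DP/Tube.lean `tube_good` with
drifts chosen from the set; compare Pool/Agent/K1H53/KZ/Upper.lean) -/
def S_upper (P : Measure Ω) (ω : ℕ → (Fin d → ℤ) → Ω → ℝ) (β : ℝ) (p : (Fin d → ℝ) → ℝ) : Prop :=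
  ∀ c s C : ℝ, 0 < c → c < 1 → 0 < s → ∀ (h v : Fin d → ℝ) (C₁ r : ℝ),
    Good (TE P ω β c s C) p h v C₁ r →
    ∀ a : ℝ, 1 + c < 2 * a → a < 1 → a ∈ ConfSet P ω β h v

/-- point-to-point partition function -/
noncomputable def Zp (β : ℝ) (η : ℕ → (Fin d → ℤ) → ℝ) (n : ℕ) (y : Fin d → ℤ) : ℝ :=
  ∑ w : Fin n → Step d, if pos w n = y then Real.exp (β * energy η w) else 0

/-- `y` is the end point of a walk of `n` steps -/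
def reach (n : ℕ) (y : Fin d → ℤ) : Prop := (∑ k, |y k|) ≤ (n : ℤ) ∧ ((∑ k, y k) - n) % 2 = 0

/-- the displacement from the line of velocity `v` -/
def disp (v : Fin d → ℝ) (n : ℕ) (y : Fin d → ℤ) : Fin d → ℝ := fun k => (y k : ℝ) - n * v k

/-- the event that some point-to-point free energy in the window deviates -/
def PPbad (P : Measure Ω) (ω : ℕ → (Fin d → ℤ) → Ω → ℝ) (β : ℝ) (h v : Fin d → ℝ) (N : ℕ)
    (R lam f : ℝ) : Set Ω :=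
  {x | ∃ z : Fin d → ℤ, reach N z ∧ sq (disp v N z) ≤ R ^ 2 ∧
    lam < |Real.log (Zp β (fld ω x) N z) - (f - dot h z)|}

/-- (4) point-to-point tails from free tails -/
def S_pp (P : Measure Ω) (ω : ℕ → (Fin d → ℤ) → Ω → ℝ) (β : ℝ) (p : (Fin d → ℝ) → ℝ) : Prop :=
  ∀ c s C : ℝ, 0 < c → c < 1 → 0 < s → ∀ (h v : Fin d → ℝ) (C₁ c₂ r : ℝ),
    Good (TE P ω β c s C) p h v C₁ r → 0 < c₂ →
    (∀ t : Fin d → ℝ, sq t ≤ r ^ 2 → p h + ip v t + c₂ * sq t ≤ p (h + t)) →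
    ∀ a ρ : ℝ, 1 + c < 2 * a → a < 1 → 0 < ρ → ∃ K s' C' : ℝ, 0 < K ∧ 0 < s' ∧ 0 ≤ C' ∧
      ∀ N : ℕ, 1 ≤ N → P.real (PPbad P ω β h v N (ρ * (N : ℝ) ^ a) (K * (N : ℝ) ^ (2 * a - 1))
        (N * p h)) ≤ C' * Real.exp (-(N : ℝ) ^ s')

/-- (5) the lower half: tails of the free polymer from those of the point-to-point polymers and
confinement, around some constants -/
def S_low (P : Measure Ω) (ω : ℕ → (Fin d → ℤ) → Ω → ℝ) (β : ℝ) : Prop :=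
  ∀ (h v : Fin d → ℝ) (a κ c' : ℝ), (∑ k, |v k|) < 1 → 1 < 2 * a → a < 1 → 0 < κ → κ < a →
    κ ∈ ConfSet P ω β h v → κ * (2 * a - 1) / a < c' →
    (∀ ρ : ℝ, 0 < ρ → ∃ f : ℕ → ℝ, ∃ K s' C' : ℝ, 0 < K ∧ 0 < s' ∧ 0 ≤ C' ∧
      ∀ N : ℕ, 1 ≤ N → P.real (PPbad P ω β h v N (ρ * (N : ℝ) ^ a) (K * (N : ℝ) ^ (2 * a - 1))
        (f N)) ≤ C' * Real.exp (-(N : ℝ) ^ s')) →
    ∃ s C : ℝ, 0 < s ∧ ∀ n : ℕ, 1 ≤ n → ∃ m : ℝ,
      P.real {x | (n : ℝ) ^ c' < |Real.log (Zd β h (fld ω x) n) - m|} ≤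
        C * Real.exp (-(n : ℝ) ^ s)

/-- (6) centring at the mean (compare Pool/Agent/K1H53/KZ/Cen.lean) -/
def S_center (P : Measure Ω) (ω : ℕ → (Fin d → ℤ) → Ω → ℝ) (β : ℝ) : Prop :=
  ∀ (h : Fin d → ℝ) (c' : ℝ), 0 < c' → (∃ s C : ℝ, 0 < s ∧ ∀ n : ℕ, 1 ≤ n → ∃ m : ℝ,
      P.real {x | (n : ℝ) ^ c' < |Real.log (Zd β h (fld ω x) n) - m|} ≤
        C * Real.exp (-(n : ℝ) ^ s)) → ∀ c'' : ℝ, c' < c'' → c'' ∈ TailSet P ω β h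

/-- (7) fluctuations from confinement, in dimension one (`anti_of_tube` in
Pool/Agent/K1H38/DP/Main.lean) -/
def S_anti (P : Measure Ω) (ω : ℕ → (Fin d → ℤ) → Ω → ℝ) (β : ℝ) : Prop :=
  d = 1 → 0 < β → (¬ ∃ c : ℝ, ∀ᵐ x ∂P, ω 1 0 x = c) → ∀ (h v : Fin d → ℝ) (c a : ℝ),
    c ∈ TailSet P ω β h → a ∈ ConfSet P ω β h v → a < 1 → (1 - a) / 2 ≤ c

end Pool.Agent.K1H53.KD
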