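import Pool.Agent.K1H53.KD.Plan

/-!
The relation between the exponents of the free polymer at almost every drift in every dimension:
more statements of steps (point-to-point partition functions, independence, the case `χ = 0`).
-/

open MeasureTheory ProbabilityTheory Set Filter TH967.DP
open scoped Topology

set_option linter.unusedSectionVars false

namespace Pool.Agent.K1H53.KD

open Pool.Agent.K1H38.DP

variable {d : ℕ} {Ω : Type*} [MeasurableSpace Ω]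

/-- properties of the point-to-point partition functions `Zp` -/
structure ZApi (d : ℕ) : Prop where
  nonneg : ∀ (β : ℝ) (η : ℕ → (Fin d → ℤ) → ℝ) (n : ℕ) (y : Fin d → ℤ), 0 ≤ Zp β η n y
  le_Zd : ∀ (β : ℝ) (h : Fin d → ℝ) (η : ℕ → (Fin d → ℤ) → ℝ) (n : ℕ) (y : Fin d → ℤ),
    Zp β η n y * Real.exp (dot h y) ≤ Zd β h η n
  split : ∀ (β : ℝ) (h : Fin d → ℝ) (η : ℕ → (Fin d → ℤ) → ℝ) (m n : ℕ),
    Zd β h η (m + n) = ∑ y ∈ Finset.Icc (fun _ : Fin d => -(m : ℤ)) (fun _ => (m : ℤ)),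
      Zp β η m y * Real.exp (dot h y) * Zd β h (shift m y η) n
  app : ∀ (β : ℝ) (η : ℕ → (Fin d → ℤ) → ℝ) (m n : ℕ) (y z : Fin d → ℤ),
    Zp β η m y * Zp β (shift m y η) n z ≤ Zp β η (m + n) (y + z)
  pos : ∀ (β : ℝ) (η : ℕ → (Fin d → ℤ) → ℝ) (n : ℕ) (y : Fin d → ℤ), reach n y → 0 < Zp β η n y
  reach : ∀ (β : ℝ) (η : ℕ → (Fin d → ℤ) → ℝ) (n : ℕ) (y : Fin d → ℤ), 0 < Zp β η n y → reach n y
  max : ∀ (β : ℝ) (g : Fin d → ℝ) (η : ℕ → (Fin d → ℤ) → ℝ) (n : ℕ), ∃ x : Fin d → ℤ,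
    KD.reach n x ∧ Zd β g η n ≤ (2 * (n : ℝ) + 1) ^ d * (Zp β η n x * Real.exp (dot g x))
  crude : ∀ (β : ℝ) (η : ℕ → (Fin d → ℤ) → ℝ) (n : ℕ) (y : Fin d → ℤ) (B : ℝ), KD.reach n y →
    (∀ i : ℕ, 1 ≤ i → i ≤ n → ∀ x : Fin d → ℤ, (∀ k, |x k| ≤ (n : ℤ)) → |η i x| ≤ B) →
    -(n * (|β| * B)) ≤ Real.log (Zp β η n y)
  meas : ∀ (β : ℝ) (n : ℕ) (y : Fin d → ℤ),
    Measurable (fun η : ℕ → (Fin d → ℤ) → ℝ => Zp β η n y)

/-- a function of the sites in `SA` and a function of the other sites which are close to each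
other are close to a constant -/
def S_two (P : Measure Ω) (ω : ℕ → (Fin d → ℤ) → Ω → ℝ) : Prop :=
  ∀ (SA : Set (ℕ × (Fin d → ℤ))) (Y M : (ℕ → (Fin d → ℤ) → ℝ) → ℝ), Measurable Y → Measurable M →
    (∀ η η' : ℕ → (Fin d → ℤ) → ℝ, (∀ s ∈ SA, η s.1 s.2 = η' s.1 s.2) → Y η = Y η') →
    (∀ η η' : ℕ → (Fin d → ℤ) → ℝ, (∀ s ∉ SA, η s.1 s.2 = η' s.1 s.2) → M η = M η') →
    ∀ L δ : ℝ, P.real {x | L < |Y (fld ω x) - M (fld ω x)|} ≤ δ →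
      ∃ m : ℝ, P.real {x | L < |Y (fld ω x) - m|} ≤ δ

/-- (8) the case `χ = 0`: no confinement below the diffusive scale -/
def S_zero (P : Measure Ω) (ω : ℕ → (Fin d → ℤ) → Ω → ℝ) (β : ℝ) : Prop :=
  ∀ (h v : Fin d → ℝ) (a κ s₀ C₀ : ℝ), (∑ k, |v k|) < 1 → 1 < 2 * a → a < 1 → 0 < κ → κ < a →
    2 * a - 1 < s₀ →
    (∀ n : ℕ, 1 ≤ n → ∫ x, (1 - frProb β h (fun i y => ω i y x) (tube n v ((n : ℝ) ^ κ))) ∂P ≤
      C₀ * Real.exp (-(n : ℝ) ^ s₀)) →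
    (∀ ρ : ℝ, 0 < ρ → ∃ f : ℕ → ℝ, ∃ K s' C' : ℝ, 0 < K ∧ 0 < s' ∧ 0 ≤ C' ∧
      ∀ N : ℕ, 1 ≤ N → P.real (PPbad P ω β h v N (ρ * (N : ℝ) ^ a) (K * (N : ℝ) ^ (2 * a - 1))
        (f N)) ≤ C' * Real.exp (-(N : ℝ) ^ s')) →
    False

end Pool.Agent.K1H53.KD
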