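import Pool.Agent.K1H53.KD.Multi

/-!
The multi-scale steering: the induction.
-/

open Set Filter TH967.DP
open scoped Topology

set_option linter.unusedSectionVars false

namespace Pool.Agent.K1H53.KD

open Pool.Agent.K1H38.DP

variable {d : ℕ}

lemma shift_shift (n T : ℕ) (x y : Fin d → ℤ) (η : ℕ → (Fin d → ℤ) → ℝ) :
    shift n x (shift T y η) = shift (T + n) (y + x) η := by
  unfold shift
  funext i z
  rw [add_assoc, add_assoc]

lemma abs_le_of_reach {n : ℕ} {x : Fin d → ℤ} (h : reach n x) (k : Fin d) : |x k| ≤ (n : ℤ) :=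
  (Finset.single_le_sum (f := fun k => |x k|) (fun _ _ => abs_nonneg _) (Finset.mem_univ k)).trans
    h.1

lemma abs_dot_le_reach {n : ℕ} {x : Fin d → ℤ} (h : Fin d → ℝ) (hx : reach n x) :
    |dot h x| ≤ n * ∑ k, |h k| := by
  unfold dot
  rw [Finset.mul_sum]
  refine (Finset.abs_sum_le_sum_abs _ _).trans ?_
  apply Finset.sum_le_sum
  intro k _
  rw [abs_mul, mul_comm]
  apply mul_le_mul_of_nonneg_right _ (abs_nonneg _)
  have := abs_le_of_reach hx k
  have h2 : ((|x k| : ℤ) : ℝ) ≤ ((n : ℤ) : ℝ) := by exact_mod_cast this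
  push_cast at h2
  exact h2

/-- scale conditions -/
structure Sc (d : ℕ) (v : Fin d → ℝ) (A c a ρ lam C₃ θ K₁ : ℝ) (M : ℕ) : Prop where
  one : 1 ≤ M
  fl : 2 ≤ θ * M
  err1 : (2 * ((1 + A) * (M : ℝ) ^ c) + d * Real.log (2 * M + 1)) ≤
    lam * θ * ρ ^ 2 / 4 * (M : ℝ) ^ (2 * a - 1)
  err2 : 5 / 2 * lam * C₃ * ρ ^ 2 * (M : ℝ) ^ (2 * a - 1) +
    (2 * ((1 + A) * (M : ℝ) ^ c) + d * Real.log (2 * M + 1)) ≤ K₁ * (M : ℝ) ^ (2 * a - 1)
  rch : ∀ M' : ℕ, (M : ℝ) ≤ 2 * M' → ∀ z : Fin d → ℤ, ((∑ k, z k) - M') % 2 = 0 →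
      sq (disp v M' z) ≤ (ρ * (M' : ℝ) ^ a) ^ 2 → reach M' z

lemma exists_sc {v : Fin d → ℝ} (hv : ∑ k, |v k| < 1) {A c a ρ lam C₃ θ : ℝ}
    (hA : 0 ≤ A) (hc : 0 < c) (hca : 1 + c < 2 * a) (ha : a < 1) (hρ : 0 < ρ) (hl : 0 < lam)
    (hθ : 0 < θ) : ∀ᶠ M : ℕ in atTop, Sc d v A c a ρ lam C₃ θ
      (5 / 2 * lam * C₃ * ρ ^ 2 + 1) M := by
  obtain ⟨M', hM'⟩ := eventually_atTop.1 (reach_of (d := d) hv hρ ha)
  have h1 := err_small (d := d) hA hc (show c < 2 * a - 1 by linarith)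
    (ε := lam * θ * ρ ^ 2 / 4) (by positivity)
  have h2 := err_small (d := d) hA hc (show c < 2 * a - 1 by linarith) (ε := 1) one_pos
  have h3 : ∀ᶠ M : ℕ in atTop, 2 / θ ≤ (M : ℝ) := tendsto_natCast_atTop_atTop.eventually_ge_atTop _
  filter_upwards [h1, h2, h3, eventually_ge_atTop (2 * M'), eventually_ge_atTop 1] with
    M a1 a2 a3 a4 a5
  refine ⟨a5, ?_, a1, ?_, ?_⟩
  · rw [div_le_iff₀ hθ] at a3; linarith
  · linarith
  · intro M'' h z hz1 hz2
    apply hM' M'' _ z hz1 hz2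
    have : (M : ℝ) ≤ ((2 * M'' : ℕ) : ℝ) := by push_cast; exact h
    have : M ≤ 2 * M'' := by exact_mod_cast this
    omega

theorem multi [NeZero d] (hZ : ZApi d) {E : Set (Fin d → ℝ)} {p : (Fin d → ℝ) → ℝ}
    {h v : Fin d → ℝ} {C₁ r c₂ : ℝ} (hg : Good E p h v C₁ r) (hc2 : 0 < c₂)
    (hlow : ∀ t : Fin d → ℝ, sq t ≤ r ^ 2 → p h + ip v t + c₂ * sq t ≤ p (h + t))
    (hv : ∑ k, |v k| < 1) {L : (Fin d → ℝ) → ℕ → ℝ} {A c a ρ : ℝ} (hA : 0 ≤ A)
    (hL : ∀ g ∈ E, (∀ k, |g k - h k| ≤ 1) → ∀ m : ℕ, |L g m - m * p g| ≤ A * (m : ℝ) ^ c)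
    (hc : 0 < c) (hca : 1 + c < 2 * a) (ha : a < 1) (hρ : 0 < ρ) (β : ℝ) :
    ∃ G : ℕ → (Fin d → ℤ) → Option (Option (Fin d × Bool)) → Fin d → ℝ,
      (∀ M z j, G M z j ∈ E) ∧ ∃ (M₀ : ℕ) (K : ℝ), 0 < K ∧
      ∀ (env : ℕ → (Fin d → ℤ) → ℝ) (N₀ M₁ : ℕ) (B : ℝ), M₀ ≤ M₁ → 0 ≤ B →
      (∀ i ≤ N₀, ∀ x : Fin d → ℤ, (∀ k, |x k| ≤ (N₀ : ℤ)) → |env i x| ≤ B) →
      (∀ M : ℕ, M₁ ≤ M → M ≤ N₀ → ∀ z : Fin d → ℤ, (∀ k, |z k| ≤ (N₀ : ℤ)) → ∀ j, ∀ n ≤ M,
        ∀ T ≤ N₀, ∀ y : Fin d → ℤ, (∀ k, |y k| ≤ (N₀ : ℤ)) →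
        |Real.log (Zd β (G M z j) (shift T y env) n) - L (G M z j) n| ≤ (M : ℝ) ^ c) →
      ∀ (M T : ℕ) (y z : Fin d → ℤ), T + M ≤ N₀ → (∀ k, |y k| ≤ (T : ℤ)) → reach M z →
        sq (disp v M z) ≤ (ρ * (M : ℝ) ^ a) ^ 2 →
        M * p h - dot h z - K * (M : ℝ) ^ (2 * a - 1) -
          M₁ * (|β| * B + |p h| + ∑ k, |h k|) ≤ Real.log (Zp β (shift T y env) M z) := by
  have hle : c₂ ≤ max C₁ c₂ := le_max_right _ _
  obtain ⟨lam, C₃, η, θ, hp⟩ := exists_par (d := d) hc2 hle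
  have hup : ∀ t : Fin d → ℝ, sq t ≤ r ^ 2 → p (h + t) ≤ p h + ip v t + max C₁ c₂ * sq t := by
    intro t ht
    refine (hg.up t ht).trans ?_
    have := mul_le_mul_of_nonneg_right (le_max_left C₁ c₂) (sq_nn t)
    linarith
  have hl := hp.lam_pos
  have hθ0 := hp.hθ0
  have hθ1 := hp.hθ1
  have hC3 := hp.C3_ge
  obtain ⟨M₂, hM₂⟩ := eventually_atTop.1 (exists_dr hg hp hρ ha)
  obtain ⟨M₃, hM₃⟩ := eventually_atTop.1 (exists_sc (d := d) (C₃ := C₃) hv hA hc hca ha hρ hl hθ0)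
  -- the drifts
  have hG : ∀ (M : ℕ) (z : Fin d → ℤ), ∃ G : Option (Option (Fin d × Bool)) → Fin d → ℝ,
      (∀ j, G j ∈ E) ∧ (∀ j k, |G j k - h k| ≤ 1) ∧
      (M₂ ≤ M → sq (disp v M z) ≤ (ρ * (M : ℝ) ^ a) ^ 2 → Dr E h v r lam η ρ a M z G) := by
    intro M z
    by_cases hM : M₂ ≤ M ∧ sq (disp v M z) ≤ (ρ * (M : ℝ) ^ a) ^ 2
    · obtain ⟨G, h1, h2, h3⟩ := hM₂ M hM.1 z hM.2
      exact ⟨G, h1, h2, fun _ _ => h3⟩
    · exact ⟨fun _ => h, fun _ => hg.mem, fun _ _ => by simp, fun h1 h2 => absurd ⟨h1, h2⟩ hM⟩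
  choose G hGE hGn hGd using hG
  set K₁ := 5 / 2 * lam * C₃ * ρ ^ 2 + 1 with hK1
  have hK10 : 0 < K₁ := by rw [hK1]; positivity
  set e := 2 * a - 1 with he
  have he0 : 0 < e := by rw [he]; linarith
  set g₀ := (1 - θ / 2) ^ e with hg0
  have hg1 : g₀ < 1 := Real.rpow_lt_one (by linarith) (by linarith) he0
  have hg2 : 0 ≤ g₀ := Real.rpow_nonneg (by linarith) _
  set K := K₁ / (1 - g₀) with hK
  have hK0 : 0 < K := div_pos hK10 (by linarith)
  have h1g : 1 - g₀ ≠ 0 := by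
    have : 0 < 1 - g₀ := by linarith
    exact this.ne'
  have hKK : K₁ + K * g₀ = K := by rw [hK]; field_simp; ring
  refine ⟨G, hGE, max M₂ M₃, K, hK0, fun env N₀ M₁ B hM₁ hB henv hgood M => ?_⟩
  set Base := |β| * B + |p h| + ∑ k, |h k| with hBase
  have hsum0 : 0 ≤ ∑ k, |h k| := Finset.sum_nonneg fun _ _ => abs_nonneg _
  have hBase0 : 0 ≤ Base := by rw [hBase]; positivity
  induction M using Nat.strong_induction_on with
  | _ M ih =>
    intro T y z hT hy hz hzd
    rcases Nat.lt_or_ge M M₁ with hlt | hge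
    · -- crude bound
      have h1 := hZ.crude β (shift T y env) M z B hz (fun i _ hi2 x hx => by
        unfold shift
        apply henv _ (by omega)
        intro k
        rw [Pi.add_apply]
        have := abs_add_le (y k) (x k)
        have := hy k
        have := hx k
        have : ((T + M : ℕ) : ℤ) ≤ N₀ := by exact_mod_cast hT
        push_cast at this
        omega)
      have h2 := abs_dot_le_reach h hz
      have h3 : -dot h z ≤ M * ∑ k, |h k| := (neg_le_abs _).trans h2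
      have h4 : (M : ℝ) * p h ≤ M * |p h| :=
        mul_le_mul_of_nonneg_left (le_abs_self _) (Nat.cast_nonneg _)
      have h5 : (M : ℝ) * Base ≤ M₁ * Base :=
        mul_le_mul_of_nonneg_right (by exact_mod_cast hlt.le) hBase0
      have h6 : (M : ℝ) * Base = M * (|β| * B) + M * |p h| + M * ∑ k, |h k| := by
        rw [hBase]; ring
      have h7 : 0 ≤ K * (M : ℝ) ^ e := by positivity
      linarith
    · -- one step
      have hM2 : M₂ ≤ M := (le_max_left _ _).trans (hM₁.trans hge)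
      have hM3 : M₃ ≤ M := (le_max_right _ _).trans (hM₁.trans hge)
      have sc := hM₃ M hM3
      have dr := hGd M z hM2 hzd
      have hMN : M ≤ N₀ := by omega
      have hMR : (1 : ℝ) ≤ M := by exact_mod_cast sc.one
      have hM0 : (0 : ℝ) < M := by linarith
      obtain ⟨n, hn⟩ : ∃ n, n = ⌊θ * M⌋₊ := ⟨_, rfl⟩
      have hn2 : (n : ℝ) ≤ θ * M := by rw [hn]; exact Nat.floor_le (by positivity)
      have hn3 : θ * M < n + 1 := by rw [hn]; exact Nat.lt_floor_add_one _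
      have hn1 : θ * M ≤ 2 * n := by have := sc.fl; linarith
      have hθM : θ * M ≤ 1 / 8 * M := mul_le_mul_of_nonneg_right hθ1 hM0.le
      have hnM : (n : ℝ) ≤ M := by linarith
      have hnM' : n ≤ M := by exact_mod_cast hnM
      have hn0 : 1 ≤ n := by
        have : (0 : ℝ) < n := by have := sc.fl; linarith
        have : 0 < n := by exact_mod_cast this
        omega
      set X := ρ * (M : ℝ) ^ a with hX
      have hX0 : 0 < X := by rw [hX]; positivity
      have hX2 : X ^ 2 = ρ ^ 2 * (M : ℝ) ^ e * M := by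
        have : (M : ℝ) ^ e * M = ((M : ℝ) ^ a) ^ 2 := by
          rw [he, ← Real.rpow_natCast ((M : ℝ) ^ a) 2, ← Real.rpow_mul hM0.le,
            Real.rpow_sub_one hM0.ne']
          have e1 : a * ((2 : ℕ) : ℝ) = 2 * a := by push_cast; ring
          rw [e1]
          field_simp
        rw [hX, mul_pow, mul_assoc, this]
      have hzb : ∀ k, |z k| ≤ (N₀ : ℤ) := fun k => (abs_le_of_reach hz k).trans (by exact_mod_cast hMN)
      have hyb : ∀ k, |y k| ≤ (N₀ : ℤ) := fun k => (hy k).trans (by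
        have : T ≤ N₀ := by omega
        exact_mod_cast this)
      -- deviations from the limits
      have hdev : ∀ j, |Real.log (Zd β (G M z j) (shift T y env) n) - n * p (G M z j)| ≤
          (1 + A) * (M : ℝ) ^ c := by
        intro j
        have h1 := hgood M hge hMN z hzb j n hnM' T (by omega) y hyb
        have h2 := hL (G M z j) (hGE M z j) (hGn M z j) n
        have h3 : A * (n : ℝ) ^ c ≤ A * (M : ℝ) ^ c :=
          mul_le_mul_of_nonneg_left (Real.rpow_le_rpow (Nat.cast_nonneg n) hnM hc.le) hA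
        have h4 := abs_sub_le (Real.log (Zd β (G M z j) (shift T y env) n)) (L (G M z j) n)
          (n * p (G M z j))
        linarith
      have hlog : Real.log (2 * n + 1) ≤ Real.log (2 * M + 1) :=
        Real.log_le_log (by positivity) (by linarith)
      have hlogd : (d : ℝ) * Real.log (2 * n + 1) ≤ d * Real.log (2 * M + 1) :=
        mul_le_mul_of_nonneg_left hlog (Nat.cast_nonneg d)
      have hdh := hdev none
      rw [dr.non] at hdh
      obtain ⟨x, hx, hx1, hx2⟩ := steer hZ hp (env := shift T y env) hup hlow hM0 hn1 hn2 hX0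
        (e := disp v M z) (g := G M z (some none)) (q := fun k b => G M z (some (some (k, b))))
        (τ := 5 * Real.sqrt d * lam * X / M) rfl dr.gr dr.qr dr.q dr.cas
        (b := (1 + A) * (M : ℝ) ^ c) (by
          have h1 : 2 * ((1 + A) * (M : ℝ) ^ c) + d * Real.log (2 * n + 1) ≤
              lam * θ * ρ ^ 2 / 4 * (M : ℝ) ^ e := by linarith [sc.err1]
          have h2 := mul_le_mul_of_nonneg_right h1 (show (0 : ℝ) ≤ 4 * M by positivity)
          refine h2.trans (le_of_eq ?_)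
          rw [hX2]; ring) hdh (hdev _) (fun k b' => hdev _)
      -- the remaining walk
      obtain ⟨M', hM'⟩ : ∃ M', M = n + M' := Nat.exists_eq_add_of_le hnM'
      have hM'R : (M : ℝ) = n + M' := by rw [hM']; push_cast; ring
      have hM'1 : (1 - θ) * M ≤ M' := by linarith
      have hM'2 : (M' : ℝ) ≤ (1 - θ / 2) * M := by linarith
      have hM'0 : (0 : ℝ) < M' := by linarith
      have hdd : disp v M' (z - x) = disp v M z - disp v n x := by
        funext k
        simp only [disp, Pi.sub_apply, Int.cast_sub]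
        rw [hM'R]; ring
      have hX' : (1 - 3 * θ) * X ^ 2 ≤ (ρ * (M' : ℝ) ^ a) ^ 2 := by
        rw [hX, mul_pow, mul_pow]
        have h1 : ((1 - θ) * (M : ℝ)) ^ a ≤ (M' : ℝ) ^ a :=
          Real.rpow_le_rpow (by
            have : 0 ≤ 1 - θ := by linarith
            positivity) hM'1 (by linarith)
        rw [Real.mul_rpow (by linarith) hM0.le] at h1
        have h2 : (1 - θ) ≤ (1 - θ) ^ a := by
          have := Real.rpow_le_rpow_of_exponent_ge (show 0 < 1 - θ by linarith)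
            (show 1 - θ ≤ 1 by linarith) ha.le
          rwa [Real.rpow_one] at this
        have hMa : 0 < (M : ℝ) ^ a := by positivity
        have h3 : (1 - θ) * (M : ℝ) ^ a ≤ (M' : ℝ) ^ a :=
          (mul_le_mul_of_nonneg_right h2 hMa.le).trans h1
        have h4 := pow_le_pow_left₀ (mul_nonneg (by linarith) hMa.le) h3 2
        have h5 : (1 - 3 * θ) * ((M : ℝ) ^ a) ^ 2 ≤ ((1 - θ) * (M : ℝ) ^ a) ^ 2 := by
          rw [mul_pow]
          apply mul_le_mul_of_nonneg_right _ (sq_nonneg _)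
          have q1 : (1 - θ) ^ 2 = 1 - 2 * θ + θ ^ 2 := by ring
          have q2 := sq_nonneg θ
          rw [q1]
          linarith
        have h6 := mul_le_mul_of_nonneg_left (h5.trans h4) (sq_nonneg ρ)
        linarith
      have hzd' : sq (disp v M' (z - x)) ≤ (ρ * (M' : ℝ) ^ a) ^ 2 := by
        rw [hdd]; exact hx1.trans hX'
      have hpar : ((∑ k, (z - x) k) - M') % 2 = 0 := by
        have h1 := hz.2
        have h2 := hx.2
        have h3 : (∑ k, (z - x) k) = (∑ k, z k) - ∑ k, x k := by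
          rw [← Finset.sum_sub_distrib]; rfl
        rw [h3]
        rw [hM'] at h1
        push_cast at h1
        omega
      have hz' : reach M' (z - x) := sc.rch M' (by linarith) _ hpar hzd'
      have hyx : ∀ k, |(y + x) k| ≤ ((T + n : ℕ) : ℤ) := by
        intro k
        rw [Pi.add_apply]
        have := abs_add_le (y k) (x k)
        have := hy k
        have := abs_le_of_reach hx k
        push_cast
        omega
      have hih := ih M' (by omega) (T + n) (y + x) (z - x) (by omega) hyx hz' hzd'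
      have happ := hZ.app β (shift T y env) n M' x (z - x)
      rw [shift_shift, ← hM', add_sub_cancel] at happ
      have hp1 := hZ.pos β (shift T y env) n x hx
      have hp2 := hZ.pos β (shift (T + n) (y + x) env) M' (z - x) hz'
      have hlog2 := Real.log_le_log (mul_pos hp1 hp2) happ
      rw [Real.log_mul hp1.ne' hp2.ne'] at hlog2
      have hdotx : dot h (z - x) = dot h z - dot h x := by
        have := dot_add_right h (z - x) x
        rw [sub_add_cancel] at this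
        linarith
      rw [hdotx] at hih
      have hrec : K * (M' : ℝ) ^ e ≤ K * (g₀ * (M : ℝ) ^ e) := by
        apply mul_le_mul_of_nonneg_left _ hK0.le
        rw [hg0, ← Real.mul_rpow (by linarith) hM0.le]
        exact Real.rpow_le_rpow hM'0.le hM'2 he0.le
      have hcost : 5 / 2 * lam * C₃ * X ^ 2 / M +
          (2 * ((1 + A) * (M : ℝ) ^ c) + d * Real.log (2 * n + 1)) ≤ K₁ * (M : ℝ) ^ e := by
        have h1 : 5 / 2 * lam * C₃ * X ^ 2 / M = 5 / 2 * lam * C₃ * ρ ^ 2 * (M : ℝ) ^ e := by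
          rw [hX2]; field_simp
        rw [h1]
        linarith [sc.err2]
      have hfin : K₁ * (M : ℝ) ^ e + K * (g₀ * (M : ℝ) ^ e) = K * (M : ℝ) ^ e := by
        rw [← mul_assoc, ← add_mul, hKK]
      have hMp : (M : ℝ) * p h = n * p h + M' * p h := by rw [hM'R]; ring
      linarith

end Pool.Agent.K1H53.KD
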