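import Pool.Agent.K1H53.KD.LowT
import Pool.Agent.K1H53.KD.Asm

/-!
Typical exponents: the exponent of the fluctuations in probability and the wandering exponent of
the problem.
-/

open MeasureTheory ProbabilityTheory Set Filter TH967.DP
open scoped Topology

set_option linter.unusedSectionVars false

namespace Pool.Agent.K1H53.KD

open Pool.Agent.K1H38.DP

variable {d : ℕ} {Ω : Type*} [MeasurableSpace Ω]

/-- The exponents `c > 0` such that, for some constants `m_n`,
`ℙ(|log Z_n^h - m_n| > n^c) → 0`. -/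
def TypSet (P : Measure Ω) (ω : ℕ → (Fin d → ℤ) → Ω → ℝ) (β : ℝ) (h : Fin d → ℝ) : Set ℝ :=
  {c : ℝ | 0 < c ∧ ∀ δ : ℝ, 0 < δ → ∀ᶠ n : ℕ in atTop, ∃ m : ℝ,
    P.real {x | (n : ℝ) ^ c < |Real.log (Zn β h (fun i y => ω i y x) n) - m|} ≤ δ}

/-- The typical fluctuation exponent of the polymer with drift `h`. -/
noncomputable def chiTyp (P : Measure Ω) (ω : ℕ → (Fin d → ℤ) → Ω → ℝ) (β : ℝ)
    (h : Fin d → ℝ) : ℝ := sInf (TypSet P ω β h)

variable {P : Measure Ω} [IsProbabilityMeasure P] {ω : ℕ → (Fin d → ℤ) → Ω → ℝ}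

lemma se_tendsto {s : ℝ} (hs : 0 < s) :
    Tendsto (fun n : ℕ => Real.exp (-(n : ℝ) ^ s)) atTop (𝓝 0) :=
  Real.tendsto_exp_neg_atTop_nhds_zero.comp
    ((tendsto_rpow_atTop hs).comp tendsto_natCast_atTop_atTop)

lemma chiTyp_le {β c : ℝ} {h : Fin d → ℝ} (hc : c ∈ TypSet P ω β h) : chiTyp P ω β h ≤ c :=
  csInf_le ⟨0, fun _ h => h.1.le⟩ hc

lemma typ_of_tail {β c : ℝ} {h : Fin d → ℝ} (hc : c ∈ TailSet P ω β h) : c ∈ TypSet P ω β h := by
  obtain ⟨hc0, s, C, hs, H⟩ := hc
  refine ⟨hc0, fun δ hδ => ?_⟩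
  have h1 := (se_tendsto hs).const_mul |C|
  rw [mul_zero] at h1
  filter_upwards [h1.eventually_le_const hδ, eventually_ge_atTop 1] with n h2 h3
  exact ⟨_, (H n h3).trans ((mul_le_mul_of_nonneg_right (le_abs_self C)
    (Real.exp_pos _).le).trans h2)⟩

lemma chiTyp_le_chi [NeZero d] (he : IsEnv P ω) (hexp : HasExp P ω) (β : ℝ) (h : Fin d → ℝ) :
    chiTyp P ω β h ≤ chi P ω β h :=
  csInf_le_csInf ⟨0, fun _ h => h.1.le⟩ ⟨1, mem_tailset he hexp β h (by norm_num) le_rfl⟩
    (fun _ hc => typ_of_tail hc)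

lemma chiTyp_nonneg (β : ℝ) (h : Fin d → ℝ) : 0 ≤ chiTyp P ω β h :=
  Real.sInf_nonneg fun _ hc => hc.1.le

/-- confinement in the sense of the problem implies convergence of the mean -/
lemma conf_mean [NeZero d] (he : IsEnv P ω) {β : ℝ} {h v : Fin d → ℝ} {R : ℕ → ℝ}
    (H : ∫⁻ x, liminf (fun n : ℕ => ENNReal.ofReal (frProb β h
      (fun i y => ω i y x) (tube n v (R n)))) atTop ∂P = 1) :
    Tendsto (fun n : ℕ => ∫ x, (1 - frProb β h (fun i y => ω i y x) (tube n v (R n))) ∂P)
      atTop (𝓝 0) := by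
  set F : ℕ → Ω → ℝ := fun n x => frProb β h (fun i y => ω i y x) (tube n v (R n)) with hF
  have mF : ∀ n, Measurable (F n) := fun n => K1H54.KD.measurable_frProb he β h n _
  have F0 : ∀ n x, 0 ≤ F n x := fun n x => K1H54.KD.frProb_nonneg β h _ n _
  have F1 : ∀ n x, F n x ≤ 1 := fun n x => K1H54.KD.frProb_le_one β h _ n _
  have hle : ∀ x, liminf (fun n : ℕ => ENNReal.ofReal (F n x)) atTop ≤ 1 := by
    intro x
    refine (liminf_le_liminf (Eventually.of_forall fun n => ?_)).trans
      (le_of_eq (liminf_const (1 : ENNReal)))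
    rw [← ENNReal.ofReal_one]
    exact ENNReal.ofReal_le_ofReal (F1 n x)
  have mL : Measurable (fun x => liminf (fun n : ℕ => ENNReal.ofReal (F n x)) atTop) :=
    Measurable.liminf fun n => (mF n).ennreal_ofReal
  have hae : ∀ᵐ x ∂P, liminf (fun n : ℕ => ENNReal.ofReal (F n x)) atTop = 1 := by
    have h1 : ∫⁻ x, (1 - liminf (fun n : ℕ => ENNReal.ofReal (F n x)) atTop) ∂P = 0 := by
      rw [lintegral_sub mL (by rw [H]; exact ENNReal.one_ne_top)
        (Eventually.of_forall fun x => hle x), H]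
      simp
    have mS : Measurable (fun x => 1 - liminf (fun n : ℕ => ENNReal.ofReal (F n x)) atTop) :=
      measurable_const.sub mL
    filter_upwards [(lintegral_eq_zero_iff mS).1 h1] with x hx
    simp only [Pi.zero_apply] at hx
    exact le_antisymm (hle x) (tsub_eq_zero_iff_le.1 hx)
  have hlim : ∀ᵐ x ∂P, Tendsto (fun n => 1 - F n x) atTop (𝓝 0) := by
    filter_upwards [hae] with x hx
    have h1 : Tendsto (fun n => ENNReal.ofReal (F n x)) atTop (𝓝 1) := by
      refine tendsto_of_le_liminf_of_limsup_le hx.ge ?_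
      refine (limsup_le_limsup (Eventually.of_forall fun n => ?_)).trans
        (le_of_eq (limsup_const (1 : ENNReal)))
      rw [← ENNReal.ofReal_one]
      exact ENNReal.ofReal_le_ofReal (F1 n x)
    have h2 := (ENNReal.tendsto_toReal ENNReal.one_ne_top).comp h1
    have h3 : Tendsto (fun n => F n x) atTop (𝓝 1) := by
      refine h2.congr (fun n => ?_)
      simp only [Function.comp_apply]
      exact ENNReal.toReal_ofReal (F0 n x)
    have h4 := h3.const_sub 1
    rwa [sub_self] at h4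
  have h5 := tendsto_integral_of_dominated_convergence (μ := P) (F := fun n x => 1 - F n x)
    (f := fun _ => (0 : ℝ)) (fun _ => (1 : ℝ)) (fun n => ((mF n).const_sub 1).aestronglyMeasurable)
    (integrable_const _) (fun n => Eventually.of_forall fun x => by
      rw [Real.norm_eq_abs, abs_le]
      have := F0 n x
      have := F1 n x
      constructor <;> linarith) hlim
  simpa using h5

/-- the set of the wandering exponent is not empty -/
lemma wset_ne [NeZero d] {β : ℝ} {h v : Fin d → ℝ} :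
    {a : ℝ | 0 < a ∧ ∫⁻ x, liminf (fun n : ℕ => ENNReal.ofReal (frProb β h
    (fun i y => ω i y x) (tube n v ((n : ℝ) ^ a)))) atTop ∂P = 1}.Nonempty := by
  refine ⟨2, by norm_num, ?_⟩
  have key : ∀ᶠ n : ℕ in atTop, tube n v ((n : ℝ) ^ (2 : ℝ)) = (univ : Set (Fin n → Step d)) := by
    have h0 : ∀ᶠ n : ℕ in atTop, Real.sqrt d * (1 + nm v) ≤ n :=
      tendsto_natCast_atTop_atTop.eventually_ge_atTop _
    filter_upwards [h0, eventually_ge_atTop 1] with n hn hn1
    have hnR : (1 : ℝ) ≤ n := by exact_mod_cast hn1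
    rw [eq_univ_iff_forall]
    intro w i hi
    have h1 : Real.sqrt (∑ k, ((pos w i k : ℝ) - i * v k) ^ 2) =
        nm ((fun k => (pos w i k : ℝ)) - (i : ℝ) • v) := by
      unfold nm sq
      rfl
    rw [h1]
    refine (nm_sub _ _).trans ?_
    rw [nm_smul, Nat.abs_cast]
    have h2 : nm (fun k => (pos w i k : ℝ)) ≤ Real.sqrt d * n := by
      rw [nm_le (by positivity), mul_pow, Real.sq_sqrt (Nat.cast_nonneg d)]
      unfold sq
      calc ∑ k, (pos w i k : ℝ) ^ 2 ≤ ∑ _k : Fin d, (n : ℝ) ^ 2 := by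
            apply Finset.sum_le_sum
            intro k _
            have h3 := abs_pos_le w i k
            have h4 : ((|pos w i k| : ℤ) : ℝ) ≤ ((n : ℤ) : ℝ) := by exact_mod_cast h3
            push_cast at h4
            rw [← sq_abs]
            exact pow_le_pow_left₀ (abs_nonneg _) h4 2
        _ = d * (n : ℝ) ^ 2 := by
            rw [Finset.sum_const, Finset.card_univ, Fintype.card_fin, nsmul_eq_mul]
    have h3 : (i : ℝ) * nm v ≤ n * nm v :=
      mul_le_mul_of_nonneg_right (by exact_mod_cast hi) (nm_nn v)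
    have hs1 : 1 ≤ Real.sqrt d := by
      rw [Real.one_le_sqrt]
      exact_mod_cast NeZero.one_le
    have h4 : n * nm v ≤ Real.sqrt d * (n * nm v) := by
      have : 0 ≤ n * nm v := mul_nonneg (Nat.cast_nonneg n) (nm_nn v)
      nlinarith
    have h5 : (n : ℝ) ^ (2 : ℝ) = n * n := by rw [Real.rpow_two]; ring
    rw [h5]
    have h6 := mul_le_mul_of_nonneg_right hn (Nat.cast_nonneg (α := ℝ) n)
    nlinarith
  have h1 : ∀ x, liminf (fun n : ℕ => ENNReal.ofReal (frProb β h
      (fun i y => ω i y x) (tube n v ((n : ℝ) ^ (2 : ℝ))))) atTop = 1 := by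
    intro x
    apply Tendsto.liminf_eq
    apply tendsto_const_nhds.congr'
    filter_upwards [key] with n hn
    rw [hn]
    have h2 := frProb_compl β h (fun i y => ω i y x) (univ : Set (Fin n → Step d))
    have h3 : frProb β h (fun i y => ω i y x) (univ : Set (Fin n → Step d))ᶜ = 0 := by
      rw [compl_univ]
      unfold frProb
      simp
    rw [h3, add_zero] at h2
    rw [h2]; simp
  simp_rw [h1]
  simp

/-- the relation for the typical exponents -/
theorem typ_rel [NeZero d] (he : IsEnv P ω) (hexp : HasExp P ω) {β : ℝ} (hZ : ZApi d)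
    {h v : Fin d → ℝ} (hv : ∑ k, |v k| < 1)
    (tails : ∀ a b : ℝ, chi P ω β h < b → b ≤ 2 * a - 1 → a < 1 →
        (∀ ρ : ℝ, 0 < ρ → ∃ f : ℕ → ℝ, ∃ K s' C' : ℝ, 0 < K ∧ 0 < s' ∧ 0 ≤ C' ∧
        ∀ N : ℕ, 1 ≤ N → P.real (PPbad P ω β h v N (ρ * (N : ℝ) ^ a) (K * (N : ℝ) ^ (2 * a - 1))
          (f N)) ≤ C' * Real.exp (-(N : ℝ) ^ s'))) :
    (1 + chi P ω β h) * chiTyp P ω β h ≤ 2 * chi P ω β h * K1H38.DP.wanderingExp P ω β h v := by
  set χ := chi P ω β h with hχ
  have hχ0 : 0 ≤ χ := chi_nonneg β h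
  have hχ2 : χ ≤ 1 / 2 := chi_half he hexp β h
  have hty := chiTyp_le_chi he hexp β h
  rw [← hχ] at hty
  have hty0 : 0 ≤ chiTyp P ω β h := chiTyp_nonneg β h
  rcases hχ0.eq_or_lt with h0 | h0
  · rw [← h0] at hty ⊢
    have : chiTyp P ω β h = 0 := le_antisymm hty hty0
    rw [this]; simp
  have key : ∀ κ ∈ {a : ℝ | 0 < a ∧ ∫⁻ x, liminf (fun n : ℕ => ENNReal.ofReal (frProb β h
      (fun i y => ω i y x) (tube n v ((n : ℝ) ^ a)))) atTop ∂P = 1},
      (1 + χ) * chiTyp P ω β h / (2 * χ) ≤ κ := by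
    rintro κ ⟨hκ0, hκ⟩
    rw [div_le_iff₀ (by positivity)]
    rcases le_or_gt ((1 + χ) / 2) κ with h1 | h1
    · have h2 : (1 + χ) * chiTyp P ω β h ≤ (1 + χ) * χ := mul_le_mul_of_nonneg_left hty (by linarith)
      nlinarith
    · have hc : ∀ c₁ : ℝ, 2 * χ * κ / (1 + χ) < c₁ → chiTyp P ω β h ≤ c₁ := by
        intro c₁ hc₁
        rw [div_lt_iff₀ (by linarith)] at hc₁
        have hc10 : 0 < c₁ := by
          have : 0 < 2 * χ * κ := by positivity
          by_contra hcon
          push Not at hcon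
          nlinarith
        obtain ⟨a, ha1, ha2, ha3⟩ : ∃ a : ℝ, (1 + χ) / 2 < a ∧ a < 1 ∧
            κ * (2 * a - 1) / a < c₁ := by
          rcases le_or_gt (2 * κ - c₁) 0 with h0' | h0'
          · obtain ⟨a, ha1, ha2⟩ := exists_between (show (1 + χ) / 2 < 1 by linarith)
            refine ⟨a, ha1, ha2, ?_⟩
            have ha0 : 0 < a := by linarith
            rw [div_lt_iff₀ ha0]
            nlinarith
          · have h1 : (1 + χ) / 2 < κ / (2 * κ - c₁) := by
              rw [lt_div_iff₀ h0']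
              nlinarith
            obtain ⟨a, ha1, ha2⟩ := exists_between
              (show (1 + χ) / 2 < min (κ / (2 * κ - c₁)) 1 from lt_min h1 (by linarith))
            refine ⟨a, ha1, lt_of_lt_of_le ha2 (min_le_right _ _), ?_⟩
            have ha0 : 0 < a := by linarith
            have ha3 := lt_of_lt_of_le ha2 (min_le_left _ _)
            rw [lt_div_iff₀ h0'] at ha3
            rw [div_lt_iff₀ ha0]
            nlinarith
        obtain ⟨s, C, hs, hC, hev⟩ := low_all he β hZ (K1H54.KD.t_two he) h v a κ c₁ hv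
          (by linarith) ha2 hκ0 (by linarith) ha3 (tails a (2 * a - 1) (by linarith) le_rfl ha2)
        apply chiTyp_le
        refine ⟨hc10, fun δ hδ => ?_⟩
        have t1 := (se_tendsto hs).const_mul C
        rw [mul_zero] at t1
        have t2 := (conf_mean he hκ).const_mul 6
        rw [mul_zero] at t2
        filter_upwards [hev, t1.eventually_le_const (half_pos hδ),
          t2.eventually_le_const (half_pos hδ)] with n h3 h4 h5
        obtain ⟨m, hm⟩ := h3
        refine ⟨m - Real.log ((2 * (d : ℝ)) ^ n), ?_⟩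
        have e1 : {x | (n : ℝ) ^ c₁ < |Real.log (Zn β h (fun i y => ω i y x) n) -
            (m - Real.log ((2 * (d : ℝ)) ^ n))|} =
            {x | (n : ℝ) ^ c₁ < |Real.log (Zd β h (fld ω x) n) - m|} := by
          ext x
          simp only [mem_ofPred_eq]
          rw [log_Zn]
          have : Real.log (Zd β h (fun i y => ω i y x) n) - Real.log ((2 * (d : ℝ)) ^ n) -
            (m - Real.log ((2 * (d : ℝ)) ^ n)) = Real.log (Zd β h (fld ω x) n) - m := by
            unfold fld; ring
          rw [this]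
        rw [e1]
        linarith
      have h2 : chiTyp P ω β h ≤ 2 * χ * κ / (1 + χ) := le_of_forall_gt_imp_ge_of_dense hc
      rw [le_div_iff₀ (by linarith)] at h2
      linarith
  have h1 := le_csInf (wset_ne (P := P) (ω := ω) (β := β) (h := h) (v := v)) key
  rw [div_le_iff₀ (by positivity)] at h1
  unfold K1H38.DP.wanderingExp
  linarith

end Pool.Agent.K1H53.KD
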