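import Pool.Agent.K1H53.KD.Plan2

/-!
Euclidean norms on `Fin d → ℝ` and the one-step contraction (pure inequalities).
-/

open Set Filter
open scoped Topology

set_option linter.unusedSectionVars false

namespace Pool.Agent.K1H53.KD

open Pool.Agent.K1H38.DP

variable {d : ℕ}

/-- Euclidean norm -/
noncomputable def nm (t : Fin d → ℝ) : ℝ := Real.sqrt (sq t)

lemma sq_nn (t : Fin d → ℝ) : 0 ≤ sq t := Finset.sum_nonneg fun _ _ => sq_nonneg _

lemma nm_nn (t : Fin d → ℝ) : 0 ≤ nm t := Real.sqrt_nonneg _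

lemma nm_sq (t : Fin d → ℝ) : nm t ^ 2 = sq t := Real.sq_sqrt (sq_nn t)

lemma nm_eq (t : Fin d → ℝ) : nm t = ‖(WithLp.toLp 2 t : EuclideanSpace ℝ (Fin d))‖ := by
  rw [EuclideanSpace.norm_eq]
  unfold nm sq
  congr 1
  apply Finset.sum_congr rfl
  intro k _
  simp

lemma nm_add (t u : Fin d → ℝ) : nm (t + u) ≤ nm t + nm u := by
  rw [nm_eq, nm_eq, nm_eq]
  exact norm_add_le _ _

lemma nm_neg (t : Fin d → ℝ) : nm (-t) = nm t := by
  unfold nm sq
  congr 1
  apply Finset.sum_congr rfl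
  intro k _
  simp

lemma nm_sub (t u : Fin d → ℝ) : nm (t - u) ≤ nm t + nm u := by
  have := nm_add t (-u)
  rwa [nm_neg, ← sub_eq_add_neg] at this

lemma nm_smul (c : ℝ) (t : Fin d → ℝ) : nm (c • t) = |c| * nm t := by
  unfold nm sq
  rw [← Real.sqrt_sq (abs_nonneg c), ← Real.sqrt_mul (sq_nonneg _), Finset.mul_sum]
  congr 1
  apply Finset.sum_congr rfl
  intro k _
  simp only [Pi.smul_apply, smul_eq_mul, sq_abs]
  ring

lemma nm_le {t : Fin d → ℝ} {R : ℝ} (hR : 0 ≤ R) : nm t ≤ R ↔ sq t ≤ R ^ 2 := by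
  unfold nm
  exact Real.sqrt_le_left hR

lemma ip_cs (u w : Fin d → ℝ) : |ip u w| ≤ nm u * nm w := by
  have h1 : (ip u w) ^ 2 ≤ (nm u * nm w) ^ 2 := by
    rw [mul_pow, nm_sq, nm_sq]
    unfold ip sq
    exact Finset.sum_mul_sq_le_sq_mul_sq _ _ _
  exact abs_le_of_sq_le_sq h1 (mul_nonneg (nm_nn _) (nm_nn _)) |> fun h => by
    exact h

lemma ip_sub_left (u u' w : Fin d → ℝ) : ip (u - u') w = ip u w - ip u' w := by
  unfold ip
  rw [← Finset.sum_sub_distrib]
  apply Finset.sum_congr rfl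
  intro k _
  simp only [Pi.sub_apply]; ring

lemma ip_sub_right (u w w' : Fin d → ℝ) : ip u (w - w') = ip u w - ip u w' := by
  unfold ip
  rw [← Finset.sum_sub_distrib]
  apply Finset.sum_congr rfl
  intro k _
  simp only [Pi.sub_apply]; ring

lemma ip_smul_left (c : ℝ) (u w : Fin d → ℝ) : ip (c • u) w = c * ip u w := by
  unfold ip
  rw [Finset.mul_sum]
  apply Finset.sum_congr rfl
  intro k _
  simp only [Pi.smul_apply, smul_eq_mul]; ring

lemma ip_comm (u w : Fin d → ℝ) : ip u w = ip w u := by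
  unfold ip
  apply Finset.sum_congr rfl
  intro k _
  ring

lemma ip_zero_left (w : Fin d → ℝ) : ip (0 : Fin d → ℝ) w = 0 := by
  unfold ip; simp

lemma ip_single (c : ℝ) (k : Fin d) (w : Fin d → ℝ) :
    ip (c • (Pi.single k (1 : ℝ) : Fin d → ℝ)) w = c * w k := by
  rw [ip_smul_left]
  unfold ip
  rw [Finset.sum_eq_single k]
  · simp
  · intro j _ hj
    simp [Pi.single_eq_of_ne hj]
  · simp

lemma sq_sub (e w : Fin d → ℝ) : sq (e - w) = sq e - 2 * ip e w + sq w := by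
  unfold sq ip
  rw [Finset.mul_sum, ← Finset.sum_sub_distrib, ← Finset.sum_add_distrib]
  apply Finset.sum_congr rfl
  intro k _
  simp only [Pi.sub_apply]; ring

lemma nm_single (c : ℝ) (k : Fin d) : nm (c • (Pi.single k (1 : ℝ) : Fin d → ℝ)) = |c| := by
  rw [nm_smul]
  have : nm (Pi.single k (1 : ℝ) : Fin d → ℝ) = 1 := by
    unfold nm sq
    rw [Finset.sum_eq_single k]
    · simp
    · intro j _ hj
      simp [Pi.single_eq_of_ne hj]
    · simp
  rw [this, mul_one]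

/-- the largest coordinate -/
lemma exists_coord [NeZero d] (w : Fin d → ℝ) : ∃ k : Fin d, ∃ b : Bool,
    nm w ≤ Real.sqrt d * (sg b * w k) := by
  obtain ⟨k, -, hk⟩ := Finset.exists_max_image (Finset.univ : Finset (Fin d)) (fun k => |w k|)
    Finset.univ_nonempty
  have h1 : nm w ≤ Real.sqrt d * |w k| := by
    rw [nm_le (by positivity), mul_pow, Real.sq_sqrt (Nat.cast_nonneg d)]
    unfold sq
    calc ∑ j, w j ^ 2 ≤ ∑ _j : Fin d, |w k| ^ 2 := by
          apply Finset.sum_le_sum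
          intro j _
          rw [← sq_abs (w j)]
          exact pow_le_pow_left₀ (abs_nonneg _) (hk j (Finset.mem_univ j)) 2
      _ = d * |w k| ^ 2 := by
          rw [Finset.sum_const, Finset.card_univ, Fintype.card_fin, nsmul_eq_mul]
  rcases le_total 0 (w k) with h | h
  · refine ⟨k, true, ?_⟩
    rw [abs_of_nonneg h] at h1
    simpa [sg] using h1
  · refine ⟨k, false, ?_⟩
    rw [abs_of_nonpos h] at h1
    simpa [sg] using h1

/-- the bound for the displacement -/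
lemma disp_bound [NeZero d] {w u : Fin d → ℝ} {q : Fin d → Bool → Fin d → ℝ} {τ η B₁ : ℝ}
    (hτ : 0 < τ) (hη : η * (4 * Real.sqrt d) ≤ 1)
    (hq : ∀ k b, nm (q k b - (sg b * τ) • (Pi.single k (1 : ℝ) : Fin d → ℝ)) ≤ η * τ)
    (hu : nm u * (4 * Real.sqrt d) ≤ τ)
    (H : ∀ k b, ip (q k b - u) w ≤ B₁) : τ * nm w ≤ 2 * Real.sqrt d * B₁ := by
  obtain ⟨k, b, hk⟩ := exists_coord w
  have hd : (1 : ℝ) ≤ d := by exact_mod_cast NeZero.one_le
  have hs1 : 1 ≤ Real.sqrt d := by rw [Real.one_le_sqrt]; exact hd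
  set D := Real.sqrt d with hD
  have h1 := H k b
  have h2 := (abs_le.1 (ip_cs (q k b - (sg b * τ) • (Pi.single k (1 : ℝ) : Fin d → ℝ)) w)).1
  have h3 := (abs_le.1 (ip_cs u w)).2
  rw [ip_sub_left] at h1
  rw [ip_sub_left, ip_single] at h2
  have h4 : nm (q k b - (sg b * τ) • (Pi.single k (1 : ℝ) : Fin d → ℝ)) * nm w ≤ η * τ * nm w :=
    mul_le_mul_of_nonneg_right (hq k b) (nm_nn w)
  have h5 : sg b * τ * w k - η * τ * nm w - nm u * nm w ≤ B₁ := by linarith
  have h6 := mul_le_mul_of_nonneg_left h5 (show (0 : ℝ) ≤ 4 * D by linarith)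
  have h7 : τ * nm w ≤ D * (sg b * τ * w k) := by
    have := mul_le_mul_of_nonneg_left hk hτ.le
    linarith
  have h8 : (η * (4 * D)) * (τ * nm w) ≤ 1 * (τ * nm w) :=
    mul_le_mul_of_nonneg_right hη (mul_nonneg hτ.le (nm_nn w))
  have h9 : (nm u * (4 * D)) * nm w ≤ τ * nm w := mul_le_mul_of_nonneg_right hu (nm_nn w)
  nlinarith

end Pool.Agent.K1H53.KD
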